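import Pool.Agent.RCC.Defs

/-!
RCC/Blk (MP_920410_lc). The recursive ordered set built from a strategy `D`: for every code `c` of a
partial recursive function a block, which is the play of `D` against the answers `c` gives on the
elements of the block; all elements of a block are below those of the blocks of larger codes.

An element is a number `x`, which codes a `Nat.Partrec.Code` (`cd x`) and a list (`ls x`) of numbers
`e = Nat.pair t a`: the exact halting stages `t` and the answers `a` of the code on the previous
elements of the block.
-/

set_option autoImplicit false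

namespace Pool.Agent.RCC

open Nat.Partrec (Code)

/-- The code of the block of `x`. -/
noncomputable def cd (x : ℕ) : Code := Denumerable.ofNat Code x.unpair.1

/-- The list of stages and answers of `x`. -/
def ls (x : ℕ) : List ℕ := Denumerable.ofNat (List ℕ) x.unpair.2

/-- The element with the list `L` in the block of number `n`. -/
def mk (n : ℕ) (L : List ℕ) : ℕ := Nat.pair n (Encodable.encode L)

/-- The answers in a list of stages and answers. -/
def ans (L : List ℕ) : List ℕ := L.map fun e => e.unpair.2

/-- The computation of the code `c` on `y` halts exactly at the stage `e.unpair.1 + 1` with the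
answer `e.unpair.2`. -/
def Hlt (c : Code) (y e : ℕ) : Prop :=
  c.evaln (e.unpair.1 + 1) y = some e.unpair.2 ∧ c.evaln e.unpair.1 y = none

/-- The set of all elements. -/
def blkSet (D : Strat) : Set ℕ :=
  {x | (∀ j ≤ (ls x).length, (D (ans ((ls x).take j))).isSome) ∧
    ∀ j < (ls x).length, Hlt (cd x) (mk x.unpair.1 ((ls x).take j)) ((ls x).getD j 0)}

/-- The order. -/
def blkRel (D : Strat) (x y : ℕ) : Prop :=
  x = y ∨ x.unpair.1 < y.unpair.1 ∨
    (x.unpair.1 = y.unpair.1 ∧ ∃ S, D (ans (ls y)) = some S ∧ (ls x).length ∈ S)

theorem unpair_mk_fst (n : ℕ) (L : List ℕ) : (mk n L).unpair.1 = n := by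
  unfold mk; rw [Nat.unpair_pair]

theorem ls_mk (n : ℕ) (L : List ℕ) : ls (mk n L) = L := by
  unfold ls mk
  rw [Nat.unpair_pair, Denumerable.ofNat_encode]

theorem mk_ls (x : ℕ) : mk x.unpair.1 (ls x) = x := by
  unfold ls mk
  rw [Denumerable.encode_ofNat, Nat.pair_unpair]

end Pool.Agent.RCC
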