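import Pool.Agent.RCC.Blk

/-!
RCC/BlkO (MP_920410_lc). The block order is a partial order of width at most `u`.

PROOFS. `take_eq`: two elements of one block: the list of the shorter one is an initial segment of
the list of the longer one (induction on `j`: `(ls x).take j = (ls y).take j` for
`j ≤ (ls x).length ≤ (ls y).length`, because the exact halting stage and the answer of a computation
are unique: `Nat.Partrec.Code.evaln_mono`). So for an element `z` let `a n = (ans (ls z)).getD n 0`;
then `hist a j = ans ((ls z).take j)` for `j ≤ (ls z).length`, every element `x` of the block with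
`(ls x).length ≤ (ls z).length` has `D (ans (ls x)) = D (hist a (ls x).length)`, and the numbers
`j ≤ (ls z).length` are `Pres D a j`.
`blk_trans`: if the three codes are not all equal, trivial; otherwise `Good.trans` with `z` the
largest one (`blkRel x y` in a block with `x ≠ y` implies `(ls x).length < (ls y).length` by
`Good.down`). `blk_width`: an antichain with two elements lies in one block (otherwise its elements
are comparable); let `z` be one with the longest list; `x ↦ (ls x).length` is injective on it and maps it
onto an antichain of the play of `a` (`Good.width`). `blk_antisymm`: by `unpair.1` and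
the lengths.
-/

set_option autoImplicit false

namespace Pool.Agent.RCC

open Nat.Partrec (Code)

private theorem hlt_unique {c : Code} {y e e' : ℕ} (h : Hlt c y e) (h' : Hlt c y e') : e = e' := by
  obtain ⟨h1, h2⟩ := h
  obtain ⟨h1', h2'⟩ := h'
  have key : ∀ t a t' : ℕ, c.evaln (t + 1) y = some a → c.evaln t' y = none → t' ≤ t := by
    intro t a t' h3 h4
    by_contra h5
    have h6 : a ∈ c.evaln t' y := Nat.Partrec.Code.evaln_mono (by omega) h3
    rw [h4] at h6
    exact absurd h6 (by simp)
  have h3 : e.unpair.1 = e'.unpair.1 := le_antisymm (key _ _ _ h1' h2) (key _ _ _ h1 h2')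
  rw [h3, h1'] at h1
  have h4 : e'.unpair.2 = e.unpair.2 := Option.some_injective _ h1
  rw [← Nat.pair_unpair e, ← Nat.pair_unpair e', h3, h4]

private theorem take_getD (L : List ℕ) {j : ℕ} (hj : j < L.length) :
    L.take (j + 1) = L.take j ++ [L.getD j 0] := by
  rw [List.take_add_one, List.getElem?_eq_getElem hj, List.getD_eq_getElem _ _ hj]
  rfl

private theorem take_eq {D : Strat} {x y : ℕ} (hx : x ∈ blkSet D) (hy : y ∈ blkSet D)
    (h : x.unpair.1 = y.unpair.1) : ∀ j, j ≤ (ls x).length → j ≤ (ls y).length →
      (ls x).take j = (ls y).take j := by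
  intro j
  induction j with
  | zero => intro _ _; simp
  | succ j ih =>
    intro h1 h2
    have h3 := ih (by omega) (by omega)
    rw [take_getD _ (by omega), take_getD _ (by omega), h3]
    have h4 := hx.2 j (by omega)
    have h5 := hy.2 j (by omega)
    have h6 : cd x = cd y := by unfold cd; rw [h]
    rw [h3, h6, h] at h4
    rw [hlt_unique h4 h5]

private theorem eq_of_len {D : Strat} {x y : ℕ} (hx : x ∈ blkSet D) (hy : y ∈ blkSet D)
    (h : x.unpair.1 = y.unpair.1) (hl : (ls x).length = (ls y).length) : x = y := by
  have h1 := take_eq hx hy h (ls x).length le_rfl hl.le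
  rw [List.take_length, hl, List.take_length] at h1
  rw [← mk_ls x, ← mk_ls y, h, h1]

private theorem range_getD (L : List ℕ) : ∀ j ≤ L.length, (List.range j).map (fun n => L.getD n 0) = L.take j := by
  intro j
  induction j with
  | zero => intro _; simp
  | succ j ih =>
    intro h
    rw [List.range_succ, List.map_append, ih (by omega), take_getD _ (by omega)]
    rfl

/-- The answers of `z`. -/
private def an (z : ℕ) : ℕ → ℕ := fun n => (ans (ls z)).getD n 0

private theorem ans_length (L : List ℕ) : (ans L).length = L.length := by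
  unfold ans
  rw [List.length_map]

private theorem ans_take (L : List ℕ) (j : ℕ) : ans (L.take j) = (ans L).take j := by
  unfold ans
  rw [List.map_take]

private theorem hist_eq {z j : ℕ} (h : j ≤ (ls z).length) : hist (an z) j = ans ((ls z).take j) := by
  unfold hist an
  rw [range_getD _ _ (by rw [ans_length]; exact h), ans_take]

/-- The list of a shorter element of the block. -/
private theorem hist_len {D : Strat} {x z : ℕ} (hx : x ∈ blkSet D) (hz : z ∈ blkSet D)
    (h : x.unpair.1 = z.unpair.1) (hl : (ls x).length ≤ (ls z).length) :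
    hist (an z) (ls x).length = ans (ls x) := by
  rw [hist_eq hl, ← take_eq hx hz h _ le_rfl hl, List.take_length]

private theorem pres {D : Strat} {z j : ℕ} (hz : z ∈ blkSet D) (hj : j ≤ (ls z).length) :
    Pres D (an z) j := by
  intro i hi
  rw [hist_eq (hi.trans hj)]
  exact hz.1 i (hi.trans hj)

private theorem len_lt {D : Strat} {u N K : ℕ} (hD : Good D u N K) {x y : ℕ} {S : Finset ℕ}
    (h : D (ans (ls y)) = some S) (hx : (ls x).length ∈ S) : (ls x).length < (ls y).length := by
  have := hD.down _ _ h _ hx
  rwa [ans_length] at this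

theorem blk_antisymm {D : Strat} {u N K : ℕ} (hD : Good D u N K) :
    ∀ x ∈ blkSet D, ∀ y ∈ blkSet D, blkRel D x y → blkRel D y x → x = y := by
  intro x _ y _ hxy hyx
  rcases hxy with h | h | ⟨h, S, hS, hxS⟩
  · exact h
  · rcases hyx with h' | h' | ⟨h', -⟩
    · exact h'.symm
    · omega
    · omega
  · rcases hyx with h' | h' | ⟨-, T, hT, hyT⟩
    · exact h'.symm
    · omega
    · have h1 := len_lt hD hS hxS
      have h2 := len_lt hD hT hyT
      omega

theorem blk_trans {D : Strat} {u N K : ℕ} (hD : Good D u N K) :
    ∀ x ∈ blkSet D, ∀ y ∈ blkSet D, ∀ z ∈ blkSet D,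
      blkRel D x y → blkRel D y z → blkRel D x z := by
  intro x hx y hy z hz hxy hyz
  rcases hxy with rfl | h | ⟨h, S, hS, hxS⟩
  · exact hyz
  · rcases hyz with rfl | h' | ⟨h', -⟩
    · exact Or.inr (Or.inl h)
    · exact Or.inr (Or.inl (h.trans h'))
    · exact Or.inr (Or.inl (by omega))
  · rcases hyz with rfl | h' | ⟨h', T, hT, hyT⟩
    · exact Or.inr (Or.inr ⟨h, S, hS, hxS⟩)
    · exact Or.inr (Or.inl (by omega))
    · right; right
      refine ⟨h.trans h', ?_⟩
      have h1 := len_lt hD hT hyT
      have e1 := hist_len hy hz h' h1.le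
      have e2 := hist_len hz hz rfl le_rfl
      have h2 : Lt D (an z) (ls x).length (ls y).length := ⟨S, by rw [e1]; exact hS, hxS⟩
      have h3 : Lt D (an z) (ls y).length (ls z).length := ⟨T, by rw [e2]; exact hT, hyT⟩
      obtain ⟨U, hU, hxU⟩ := hD.trans (an z) _ _ _ (pres hz le_rfl) h2 h3
      rw [e2] at hU
      exact ⟨U, hU, hxU⟩

theorem blk_width {D : Strat} {u N K : ℕ} (hD : Good D u N K) (hu : 1 ≤ u) :
    ∀ A, Anti (blkSet D) (blkRel D) A → A.card ≤ u := by
  classical
  rintro A ⟨hA, hanti⟩
  rcases A.eq_empty_or_nonempty with rfl | hne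
  · rw [Finset.card_empty]
    omega
  obtain ⟨z, hz, hmax⟩ := Finset.exists_max_image A (fun x => (ls x).length) hne
  have hsame : ∀ x ∈ A, x.unpair.1 = z.unpair.1 := by
    intro x hx
    by_cases hxz : x = z
    · rw [hxz]
    · have h1 := hanti x hx z hz hxz
      have h2 := hanti z hz x hx (Ne.symm hxz)
      have h3 : ¬ x.unpair.1 < z.unpair.1 := fun h => h1 (Or.inr (Or.inl h))
      have h4 : ¬ z.unpair.1 < x.unpair.1 := fun h => h2 (Or.inr (Or.inl h))
      omega
  have hinj : Set.InjOn (fun x => (ls x).length) (A : Set ℕ) := by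
    intro x hx y hy hxy
    exact eq_of_len (hA x hx) (hA y hy) ((hsame x hx).trans (hsame y hy).symm) hxy
  rw [← Finset.card_image_of_injOn hinj]
  refine hD.width (an z) _ ?_ ?_
  · intro i hi
    obtain ⟨x, hx, rfl⟩ := Finset.mem_image.1 hi
    exact pres (hA z hz) (hmax x hx)
  · intro i hi j hj hij hlt
    obtain ⟨x, hx, rfl⟩ := Finset.mem_image.1 hi
    obtain ⟨y, hy, rfl⟩ := Finset.mem_image.1 hj
    obtain ⟨S, hS, hxS⟩ := hlt
    rw [hist_len (hA y hy) (hA z hz) (hsame y hy) (hmax y hy)] at hS
    refine hanti x hx y hy (fun h => hij (by rw [h])) ?_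
    exact Or.inr (Or.inr ⟨(hsame x hx).trans (hsame y hy).symm, S, hS, hxS⟩)

end Pool.Agent.RCC
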