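import Pool.Agent.RCC.Blk

/-!
RCC/BlkR (MP_920410_lc). The play in the block of a code which answers on all elements.

PROOF. `blk_run`: `c` answers `< K` on all elements. Define lists `L n`: `L 0 = []`, `L (n+1) = L n ++ [e]` where
`e` is `Nat.pair t a` with `Hlt c (x n) e`, `x n = mk (encode c) (L n)`, if `x n ∈ blkSet D` (exists: `a` from the
hypothesis, `Nat.Partrec.Code.evaln_complete`, least stage, `evaln 0` is `none`), and `e = 0` otherwise;
`a n` = the answer in the last entry of `L (n + 1)`, so `ans (L n) = hist a n`. By induction on `n`: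
`Pres D a n` implies `x n ∈ blkSet D`. `x` is injective (`ls (x n) = L n` has length `n`), and for
`i < j`, `blkRel D (x i) (x j)` gives `Lt D a i j`, `blkRel D (x j) (x i)` is impossible
(`Good.down`).
-/

set_option autoImplicit false

namespace Pool.Agent.RCC

open Nat.Partrec (Code)

private theorem exists_hlt {c : Code} {y K : ℕ} (h : ∃ a, a ∈ c.eval y ∧ a < K) :
    ∃ e : ℕ, Hlt c y e ∧ e.unpair.2 ∈ c.eval y := by
  classical
  obtain ⟨a, ha, _⟩ := h
  have h1 : ∃ k, (c.evaln k y).isSome := by
    obtain ⟨k, hk⟩ := Nat.Partrec.Code.evaln_complete.1 ha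
    refine ⟨k, ?_⟩
    rw [Option.mem_def] at hk
    rw [hk]
    rfl
  set k := Nat.find h1 with hk
  have h2 : (c.evaln k y).isSome := Nat.find_spec h1
  have h3 : k ≠ 0 := by
    intro h0
    rw [h0] at h2
    simp [Nat.Partrec.Code.evaln] at h2
  obtain ⟨t, ht⟩ : ∃ t, k = t + 1 := ⟨k - 1, by omega⟩
  have h4 : c.evaln t y = none := by
    have h5 : ¬ (c.evaln t y).isSome := Nat.find_min h1 (by omega)
    rwa [Option.not_isSome_iff_eq_none] at h5
  obtain ⟨a', ha'⟩ := Option.isSome_iff_exists.1 h2
  rw [ht] at ha'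
  refine ⟨Nat.pair t a', ⟨?_, ?_⟩, ?_⟩
  · rw [Nat.unpair_pair]
    exact ha'
  · rw [Nat.unpair_pair]
    exact h4
  · rw [Nat.unpair_pair]
    exact Nat.Partrec.Code.evaln_sound ha'

theorem blk_run {D : Strat} {u N K : ℕ} (hD : Good D u N K) (c : Code)
    (hc : ∀ x ∈ blkSet D, ∃ a, a ∈ c.eval x ∧ a < K) :
    ∃ a x : ℕ → ℕ, (∀ n, Pres D a n → x n ∈ blkSet D ∧ a n ∈ c.eval (x n)) ∧
      ∀ i j, i < j → Pres D a j → ¬ Lt D a i j →
        x i ≠ x j ∧ ¬ blkRel D (x i) (x j) ∧ ¬ blkRel D (x j) (x i) := by
  classical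
  -- the next entry
  have hex : ∀ L : List ℕ, ∃ e : ℕ, mk (Encodable.encode c) L ∈ blkSet D →
      Hlt c (mk (Encodable.encode c) L) e ∧ e.unpair.2 ∈ c.eval (mk (Encodable.encode c) L) := by
    intro L
    by_cases h : mk (Encodable.encode c) L ∈ blkSet D
    · obtain ⟨e, he⟩ := exists_hlt (hc _ h)
      exact ⟨e, fun _ => he⟩
    · exact ⟨0, fun h' => absurd h' h⟩
  choose e he using hex
  -- the lists
  obtain ⟨L, hL0, hL1⟩ : ∃ L : ℕ → List ℕ, L 0 = [] ∧ ∀ n, L (n + 1) = L n ++ [e (L n)] :=
    ⟨fun n => Nat.rec [] (fun _ l => l ++ [e l]) n, rfl, fun _ => rfl⟩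
  obtain ⟨a, ha⟩ : ∃ a : ℕ → ℕ, ∀ n, a n = (e (L n)).unpair.2 := ⟨_, fun _ => rfl⟩
  have hlen : ∀ n, (L n).length = n := by
    intro n
    induction n with
    | zero => rw [hL0]; rfl
    | succ n ih => rw [hL1, List.length_append, ih]; rfl
  have hans : ∀ n, ans (L n) = hist a n := by
    intro n
    induction n with
    | zero => rw [hL0]; rfl
    | succ n ih =>
      unfold ans hist at *
      rw [hL1, List.map_append, ih, List.range_succ, List.map_append]
      simp only [List.map_cons, List.map_nil]
      rw [ha n]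
  have htake : ∀ n j, j ≤ n → (L n).take j = L j := by
    intro n
    induction n with
    | zero =>
      intro j hj
      obtain rfl : j = 0 := by omega
      rw [hL0]; rfl
    | succ n ih =>
      intro j hj
      rcases Nat.lt_or_ge n j with h | h
      · obtain rfl : j = n + 1 := by omega
        rw [List.take_of_length_le]
        rw [hlen]
      · rw [hL1, List.take_append_of_le_length (by rw [hlen]; exact h)]
        exact ih j h
  have hget : ∀ n j, j < n → (L n).getD j 0 = e (L j) := by
    intro n j hj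
    have h1 := htake n (j + 1) hj
    have h2 : (L (j + 1)).getD j 0 = e (L j) := by
      rw [hL1, List.getD_append_right _ _ _ _ (by rw [hlen]), hlen, Nat.sub_self]
      rfl
    rw [← h2, ← h1, List.getD_eq_getElem?_getD, List.getD_eq_getElem?_getD,
      List.getElem?_take_of_lt (Nat.lt_succ_self j)]
  have hls : ∀ n, ls (mk (Encodable.encode c) (L n)) = L n := fun n => ls_mk _ _
  have hcd : ∀ n, cd (mk (Encodable.encode c) (L n)) = c := by
    intro n
    unfold cd
    rw [unpair_mk_fst, Denumerable.ofNat_encode]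
  have hmem : ∀ n, Pres D a n → mk (Encodable.encode c) (L n) ∈ blkSet D := by
    intro n
    induction n using Nat.strong_induction_on with
    | _ n ih =>
      intro hP
      refine ⟨?_, ?_⟩
      · intro j hj
        rw [hls, hlen] at hj
        rw [hls, htake n j hj, hans]
        exact hP j hj
      · intro j hj
        rw [hls, hlen] at hj
        rw [hls, hcd, unpair_mk_fst, htake n j hj.le, hget n j hj]
        exact (he (L j) (ih j hj (fun i hi => hP i (by omega)))).1
  refine ⟨a, fun n => mk (Encodable.encode c) (L n), ?_, ?_⟩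
  · intro n hP
    refine ⟨hmem n hP, ?_⟩
    rw [ha n]
    exact (he (L n) (hmem n hP)).2
  · intro i j hij hP hlt
    have hne : mk (Encodable.encode c) (L i) ≠ mk (Encodable.encode c) (L j) := by
      intro h
      have h1 : (ls (mk (Encodable.encode c) (L i))).length =
          (ls (mk (Encodable.encode c) (L j))).length := by rw [h]
      rw [hls, hls, hlen, hlen] at h1
      omega
    refine ⟨hne, ?_, ?_⟩
    · rintro (h | h | ⟨_, S, hS, hi⟩)
      · exact hne h
      · rw [unpair_mk_fst, unpair_mk_fst] at h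
        omega
      · rw [hls, hans] at hS
        rw [hls, hlen] at hi
        exact hlt ⟨S, hS, hi⟩
    · rintro (h | h | ⟨_, S, hS, hj⟩)
      · exact hne h.symm
      · rw [unpair_mk_fst, unpair_mk_fst] at h
        omega
      · rw [hls, hans] at hS
        rw [hls, hlen] at hj
        have h1 := hD.down _ _ hS _ hj
        unfold hist at h1
        rw [List.length_map, List.length_range] at h1
        omega

end Pool.Agent.RCC
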