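import Mathlib

/-!
Recursive ordered sets and recursive chain covers (MP_920410_lc).

`RecOrd P r`: `P` is a recursive subset of `ℕ`, partially ordered by `r`, and the set of the pairs
`(x, y)` of elements of `P` with `r x y` is recursive.
-/

set_option autoImplicit false

namespace Pool.Agent.RCC

/-- A recursive ordered set `(P, r)`. -/
structure RecOrd (P : Set ℕ) (r : ℕ → ℕ → Prop) : Prop where
  dom : ComputablePred fun x : ℕ => x ∈ P
  rel : ComputablePred fun p : ℕ × ℕ => p.1 ∈ P ∧ p.2 ∈ P ∧ r p.1 p.2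
  refl : ∀ x ∈ P, r x x
  antisymm : ∀ x ∈ P, ∀ y ∈ P, r x y → r y x → x = y
  trans : ∀ x ∈ P, ∀ y ∈ P, ∀ z ∈ P, r x y → r y z → r x z

/-- `A` is a finite antichain of `(P, r)`. -/
def Anti (P : Set ℕ) (r : ℕ → ℕ → Prop) (A : Finset ℕ) : Prop :=
  (∀ x ∈ A, x ∈ P) ∧ ∀ x ∈ A, ∀ y ∈ A, x ≠ y → ¬ r x y

/-- The largest size of an antichain of `(P, r)` is `w`. -/
def HasWidth (P : Set ℕ) (r : ℕ → ℕ → Prop) (w : ℕ) : Prop :=
  (∃ A, Anti P r A ∧ A.card = w) ∧ ∀ A, Anti P r A → A.card ≤ w

/-- `C` is a recursive chain of `(P, r)`. -/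
structure RecChain (P : Set ℕ) (r : ℕ → ℕ → Prop) (C : Set ℕ) : Prop where
  sub : C ⊆ P
  comp : ComputablePred fun x : ℕ => x ∈ C
  chain : ∀ x ∈ C, ∀ y ∈ C, r x y ∨ r y x

/-- `(P, r)` is covered by `k` recursive chains. -/
def Covered (P : Set ℕ) (r : ℕ → ℕ → Prop) (k : ℕ) : Prop :=
  ∃ C : Fin k → Set ℕ, (∀ i, RecChain P r (C i)) ∧ ∀ x ∈ P, ∃ i, x ∈ C i

/-- Every recursive ordered set of width `w` can be covered by `k` recursive chains. -/
def Cov (w k : ℕ) : Prop :=
  ∀ (P : Set ℕ) (r : ℕ → ℕ → Prop), RecOrd P r → HasWidth P r w → Covered P r k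

/-- `b w` is the least `k` such that every recursive ordered set of width `w` can be covered by `k`
recursive chains (`⊤` if there is none). -/
noncomputable def b (w : ℕ) : ℕ∞ := ⨅ k : {k : ℕ // Cov w k}, ((k : ℕ) : ℕ∞)

/-- The same for all recursive ordered sets of width at most `w`. -/
def CovLe (w k : ℕ) : Prop :=
  ∀ (P : Set ℕ) (r : ℕ → ℕ → Prop), RecOrd P r → (∀ A, Anti P r A → A.card ≤ w) → Covered P r k

/-! ### Abstract plays

A strategy tells, for a list `L` of answers (numbers), whether there is a further element and if so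
which of the previous elements (numbered `0, 1, 2, ...`) are below it. -/

/-- A strategy. -/
abbrev Strat := List ℕ → Option (Finset ℕ)

/-- The first `n` answers. -/
def hist (a : ℕ → ℕ) (n : ℕ) : List ℕ := (List.range n).map a

/-- Element number `n` exists if the answers are `a 0, a 1, ...`. -/
def Pres (D : Strat) (a : ℕ → ℕ) (n : ℕ) : Prop := ∀ j ≤ n, (D (hist a j)).isSome

/-- Element `i` is below element `j`. -/
def Lt (D : Strat) (a : ℕ → ℕ) (i j : ℕ) : Prop := ∃ S, D (hist a j) = some S ∧ i ∈ S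

/-- The set of colours coded by the number `x`. -/
def bits (k x : ℕ) : Finset ℕ := (Finset.range k).filter fun i => x.testBit i

/-- All elements presented by the strategy `D`, for all answers, form a partial order of width at
most `u`; there are at most `N` of them and the answers are smaller than `K`. -/
structure Good (D : Strat) (u N K : ℕ) : Prop where
  len : ∀ L, (D L).isSome → L.length < N ∧ ∀ x ∈ L, x < K
  pre : ∀ L x, (D (L ++ [x])).isSome → (D L).isSome
  down : ∀ L S, D L = some S → ∀ i ∈ S, i < L.length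
  trans : ∀ a i j l, Pres D a l → Lt D a i j → Lt D a j l → Lt D a i l
  width : ∀ a, ∀ A : Finset ℕ, (∀ i ∈ A, Pres D a i) →
    (∀ i ∈ A, ∀ j ∈ A, i ≠ j → ¬ Lt D a i j) → A.card ≤ u

end Pool.Agent.RCC
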