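import Pool.Agent.RCC.Defs

/-!
RCC/Pad (MP_920410_lc). Width exactly `w` against width at most `w`.

PROOF of `covLe_of_cov`. Given `(P, r)` recursive with all antichains of size at most `w`, put an
antichain of size `w` below everything: `P' = {n | n < w ∨ (w ≤ n ∧ n - w ∈ P)}`,
`r' x y := x = y ∨ (x < w ∧ w ≤ y) ∨ (w ≤ x ∧ w ≤ y ∧ r (x - w) (y - w))`. It is a `RecOrd` (for the
relation: conjunction with membership in `P'`; use `ComputablePred` of compositions with the
primitive recursive maps `x ↦ x - w`), and `HasWidth P' r' w`: `Finset.range w` is an antichain; an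
antichain with an element `< w` has all elements `< w`, any other one is mapped injectively into `P` by
`x ↦ x - w`. So `P'` is covered by `k` recursive chains `C' i`; `C i := {x | x + w ∈ C' i}` are
recursive chains of `P` (`r' (x+w) (y+w)` gives `x = y`, then `r x x`, or `r x y`) and cover `P`.
`covered_mono`: add empty sets.
-/

set_option autoImplicit false

namespace Pool.Agent.RCC

theorem covered_mono {P : Set ℕ} {r : ℕ → ℕ → Prop} {k l : ℕ} (h : Covered P r k) (hkl : k ≤ l) :
    Covered P r l := by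
  obtain ⟨C, hC, hcov⟩ := h
  refine ⟨fun i => if hi : (i : ℕ) < k then C ⟨i, hi⟩ else ∅, ?_, ?_⟩
  · intro i
    by_cases hi : (i : ℕ) < k
    · simp only [hi, dif_pos]
      exact hC _
    · simp only [hi, dif_neg, not_false_eq_true]
      refine ⟨Set.empty_subset _, ?_, fun x hx => absurd hx (Set.notMem_empty x)⟩
      rw [ComputablePred.computable_iff]
      exact ⟨fun _ => false, Computable.const false, by funext x; simp⟩
  · intro x hx
    obtain ⟨i, hi⟩ := hcov x hx
    refine ⟨⟨i, i.2.trans_le hkl⟩, ?_⟩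
    simp only [i.2, dif_pos]
    exact hi

/-- The order with an antichain of size `w` below. -/
private def pd (w : ℕ) (P : Set ℕ) : Set ℕ := {n | n < w ∨ (w ≤ n ∧ n - w ∈ P)}

private def rd (w : ℕ) (r : ℕ → ℕ → Prop) (x y : ℕ) : Prop :=
  x = y ∨ (x < w ∧ w ≤ y) ∨ (w ≤ x ∧ w ≤ y ∧ r (x - w) (y - w))

private theorem pd_comp (w : ℕ) {P : Set ℕ} {f : ℕ → Bool} (hf : Computable f)
    (hPf : (fun x => x ∈ P) = fun a => (f a : Prop)) :
    Computable (fun n : ℕ => decide (n < w) || f (n - w)) ∧
      (fun x => x ∈ pd w P) = fun a => ((decide (a < w) || f (a - w) : Bool) : Prop) := by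
  constructor
  · have h1 : Computable fun n : ℕ => decide (n < w) :=
      (PrimrecPred.decide (Primrec.nat_lt.comp Primrec.id (Primrec.const w))).to_comp
    have h2 : Computable fun n : ℕ => f (n - w) :=
      hf.comp ((Primrec.nat_sub.comp Primrec.id (Primrec.const w)).to_comp)
    exact (Primrec.or.to_comp).comp h1 h2
  · funext x
    have h := congrFun hPf (x - w)
    simp only [pd, Set.mem_setOf_eq, Bool.or_eq_true, decide_eq_true_eq, eq_iff_iff]
    rw [h]
    constructor
    · rintro (h1 | ⟨_, h1⟩)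
      · exact Or.inl h1
      · exact Or.inr h1
    · rintro (h1 | h1)
      · exact Or.inl h1
      · by_cases hx : x < w
        · exact Or.inl hx
        · exact Or.inr ⟨not_lt.mp hx, h1⟩

private theorem pd_rec (w : ℕ) {P : Set ℕ} {r : ℕ → ℕ → Prop} (hP : RecOrd P r) :
    RecOrd (pd w P) (rd w r) := by
  have hd := hP.dom
  have hr := hP.rel
  rw [ComputablePred.computable_iff] at hd hr
  obtain ⟨f, hf, hPf⟩ := hd
  obtain ⟨g, hg, hPg⟩ := hr
  obtain ⟨hc, he⟩ := pd_comp w hf hPf
  refine ⟨?_, ?_, ?_, ?_, ?_⟩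
  · rw [ComputablePred.computable_iff]
    exact ⟨_, hc, he⟩
  · rw [ComputablePred.computable_iff]
    refine ⟨fun p : ℕ × ℕ =>
      ((decide (p.1 = p.2) && (decide (p.1 < w) || f (p.1 - w))) ||
        ((decide (p.1 < w) && decide (w ≤ p.2)) && (decide (p.2 < w) || f (p.2 - w)))) ||
        ((decide (w ≤ p.1) && decide (w ≤ p.2)) && g (p.1 - w, p.2 - w)), ?_, ?_⟩
    · have hfst : Computable fun p : ℕ × ℕ => p.1 := Computable.fst
      have hsnd : Computable fun p : ℕ × ℕ => p.2 := Computable.snd
      have e1 : Computable fun p : ℕ × ℕ => decide (p.1 = p.2) :=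
        (PrimrecPred.decide (Primrec.eq.comp Primrec.fst Primrec.snd)).to_comp
      have e2 : Computable fun p : ℕ × ℕ => (decide (p.1 < w) || f (p.1 - w)) := hc.comp hfst
      have e3 : Computable fun p : ℕ × ℕ => (decide (p.2 < w) || f (p.2 - w)) := hc.comp hsnd
      have e4 : Computable fun p : ℕ × ℕ => decide (p.1 < w) :=
        (PrimrecPred.decide (Primrec.nat_lt.comp Primrec.fst (Primrec.const w))).to_comp
      have e5 : Computable fun p : ℕ × ℕ => decide (w ≤ p.2) :=
        (PrimrecPred.decide (Primrec.nat_le.comp (Primrec.const w) Primrec.snd)).to_comp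
      have e6 : Computable fun p : ℕ × ℕ => decide (w ≤ p.1) :=
        (PrimrecPred.decide (Primrec.nat_le.comp (Primrec.const w) Primrec.fst)).to_comp
      have e7 : Computable fun p : ℕ × ℕ => g (p.1 - w, p.2 - w) :=
        hg.comp (((Primrec.nat_sub.comp Primrec.fst (Primrec.const w)).pair
          (Primrec.nat_sub.comp Primrec.snd (Primrec.const w))).to_comp)
      have hor := Primrec.or.to_comp
      have hand := Primrec.and.to_comp
      exact hor.comp (hor.comp (hand.comp e1 e2) (hand.comp (hand.comp e4 e5) e3))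
        (hand.comp (hand.comp e6 e5) e7)
    · funext p
      obtain ⟨x, y⟩ := p
      have hx := congrFun he x
      have hy := congrFun he y
      have hxy := congrFun hPg (x - w, y - w)
      simp only [eq_iff_iff] at hx hy hxy
      simp only [Bool.or_eq_true, Bool.and_eq_true, decide_eq_true_eq, eq_iff_iff] at hx hy hxy ⊢
      rw [← hx, ← hy, ← hxy]
      constructor
      · rintro ⟨h1, h2, h3⟩
        rcases h3 with h3 | ⟨h3, h4⟩ | ⟨h3, h4, h5⟩
        · exact Or.inl (Or.inl ⟨h3, h1⟩)
        · exact Or.inl (Or.inr ⟨⟨h3, h4⟩, h2⟩)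
        · refine Or.inr ⟨⟨h3, h4⟩, ?_, ?_, h5⟩
          · rcases h1 with h1 | h1
            · omega
            · exact h1.2
          · rcases h2 with h2 | h2
            · omega
            · exact h2.2
      · rintro ((⟨h1, h2⟩ | ⟨⟨h1, h2⟩, h3⟩) | ⟨⟨h1, h2⟩, h3, h4, h5⟩)
        · exact ⟨h2, h1 ▸ h2, Or.inl h1⟩
        · exact ⟨Or.inl h1, h3, Or.inr (Or.inl ⟨h1, h2⟩)⟩
        · exact ⟨Or.inr ⟨h1, h3⟩, Or.inr ⟨h2, h4⟩, Or.inr (Or.inr ⟨h1, h2, h5⟩)⟩
  · intro x _
    exact Or.inl rfl
  · intro x hx y hy h1 h2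
    rcases h1 with h1 | ⟨h1, h1'⟩ | ⟨h1, h1', h1''⟩
    · exact h1
    · rcases h2 with h2 | ⟨h2, h2'⟩ | ⟨h2, h2', h2''⟩
      · exact h2.symm
      · omega
      · omega
    · rcases h2 with h2 | ⟨h2, h2'⟩ | ⟨h2, h2', h2''⟩
      · exact h2.symm
      · omega
      · have hx' : x - w ∈ P := by
          rcases hx with hx | hx
          · omega
          · exact hx.2
        have hy' : y - w ∈ P := by
          rcases hy with hy | hy
          · omega
          · exact hy.2
        have := hP.antisymm _ hx' _ hy' h1'' h2''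
        omega
  · intro x hx y hy z hz h1 h2
    rcases h1 with rfl | ⟨h1, h1'⟩ | ⟨h1, h1', h1''⟩
    · exact h2
    · rcases h2 with rfl | ⟨h2, h2'⟩ | ⟨h2, h2', h2''⟩
      · exact Or.inr (Or.inl ⟨h1, h1'⟩)
      · omega
      · exact Or.inr (Or.inl ⟨h1, h2'⟩)
    · rcases h2 with rfl | ⟨h2, h2'⟩ | ⟨h2, h2', h2''⟩
      · exact Or.inr (Or.inr ⟨h1, h1', h1''⟩)
      · omega
      · have hx' : x - w ∈ P := by
          rcases hx with hx | hx
          · omega
          · exact hx.2
        have hy' : y - w ∈ P := by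
          rcases hy with hy | hy
          · omega
          · exact hy.2
        have hz' : z - w ∈ P := by
          rcases hz with hz | hz
          · omega
          · exact hz.2
        exact Or.inr (Or.inr ⟨h1, h2', hP.trans _ hx' _ hy' _ hz' h1'' h2''⟩)

private theorem pd_width (w : ℕ) {P : Set ℕ} {r : ℕ → ℕ → Prop}
    (hw : ∀ A, Anti P r A → A.card ≤ w) : HasWidth (pd w P) (rd w r) w := by
  refine ⟨⟨Finset.range w, ⟨fun x hx => Or.inl (Finset.mem_range.mp hx), ?_⟩, Finset.card_range w⟩,
    ?_⟩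
  · intro x hx y hy hxy h
    rw [Finset.mem_range] at hx hy
    rcases h with h | ⟨_, h⟩ | ⟨h, _⟩
    · exact hxy h
    · omega
    · omega
  · rintro A ⟨hA1, hA2⟩
    by_cases hex : ∃ a ∈ A, a < w
    · obtain ⟨a, ha, haw⟩ := hex
      have hsub : A ⊆ Finset.range w := by
        intro x hx
        rw [Finset.mem_range]
        by_contra hxw
        exact hA2 a ha x hx (by omega) (Or.inr (Or.inl ⟨haw, not_lt.mp hxw⟩))
      simpa using Finset.card_le_card hsub
    · push Not at hex
      have hinj : Set.InjOn (fun x => x - w) (A : Set ℕ) := by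
        intro x hx y hy h
        have h1 := hex x hx
        have h2 := hex y hy
        simp only at h
        omega
      rw [← Finset.card_image_of_injOn hinj]
      refine hw _ ⟨?_, ?_⟩
      · intro x hx
        obtain ⟨y, hy, rfl⟩ := Finset.mem_image.mp hx
        rcases hA1 y hy with h | h
        · exact absurd h (not_lt.mpr (hex y hy))
        · exact h.2
      · intro x hx y hy hxy h
        obtain ⟨x', hx', rfl⟩ := Finset.mem_image.mp hx
        obtain ⟨y', hy', rfl⟩ := Finset.mem_image.mp hy
        exact hA2 x' hx' y' hy' (fun h => hxy (by rw [h])) (Or.inr (Or.inr ⟨hex _ hx', hex _ hy', h⟩))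

theorem covLe_of_cov {w k : ℕ} (h : Cov w k) : CovLe w k := by
  intro P r hP hw
  obtain ⟨C, hC, hcov⟩ := h (pd w P) (rd w r) (pd_rec w hP) (pd_width w hw)
  have key : ∀ x, x + w ∈ pd w P → x ∈ P := by
    rintro x (hx | hx)
    · omega
    · have h1 := hx.2
      rwa [Nat.add_sub_cancel] at h1
  refine ⟨fun i => {x | x + w ∈ C i}, ?_, ?_⟩
  · intro i
    refine ⟨fun x hx => key x ((hC i).sub hx), ?_, ?_⟩
    · have h1 := (hC i).comp
      rw [ComputablePred.computable_iff] at h1 ⊢
      obtain ⟨f, hf, hfe⟩ := h1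
      refine ⟨fun x => f (x + w), hf.comp
        ((Primrec.nat_add.comp Primrec.id (Primrec.const w)).to_comp), ?_⟩
      funext x
      exact congrFun hfe (x + w)
    · intro x hx y hy
      have hr : ∀ u v, u ∈ P → rd w r (u + w) (v + w) → r u v := by
        intro u v hu h1
        rcases h1 with h1 | ⟨h1, _⟩ | ⟨_, _, h1⟩
        · have : u = v := by omega
          rw [← this]
          exact hP.refl u hu
        · omega
        · rwa [Nat.add_sub_cancel, Nat.add_sub_cancel] at h1
      rcases (hC i).chain _ hx _ hy with h1 | h1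
      · exact Or.inl (hr x y (key x ((hC i).sub hx)) h1)
      · exact Or.inr (hr y x (key y ((hC i).sub hy)) h1)
  · intro x hx
    exact hcov (x + w) (Or.inr ⟨by omega, by rwa [Nat.add_sub_cancel]⟩)

/-- `b` is nondecreasing. -/
theorem cov_mono {w w' k : ℕ} (hw : w ≤ w') (h : Cov w' k) : Cov w k :=
  fun P r hP hr => covLe_of_cov h P r hP fun A hA => (hr.2 A hA).trans hw

end Pool.Agent.RCC
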