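import Pool.Agent.RCC.Lex
import Pool.Agent.RCC.Pad

/-!
RCC/Ext (MP_920410_lc). From a cover of the lexicographic product by recursive chains to a partial
recursive colouring of `P` by sets of colours.

PROOF. For `x ∈ P` put `a(x) = {i < k : ∃ q ∈ Q, pair x q ∈ C i}`. It has more than `l` elements:
otherwise the sets `{q | pair x q ∈ C i}`, `i ∈ a(x)`, are recursive chains of `Q`
(`lexRel` on the copy `{x} × Q` is `rQ`; composition with `q ↦ Nat.pair x q`) which cover `Q`, and
`covered_mono` contradicts `hQn`. For `s : ℕ` let `f x s` be the number with the binary digits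
`i < k`, `∃ q < s, pair x q ∈ C i` (so `f x s < 2 ^ k`, `bits k (f x s) = {i < k : ∃ q < s, ..}`; membership
in `C i` already contains `q ∈ Q`). `f` is computable (it is enough to have some computable function
with this property; e.g. `f x s = ∑ i < k, if (∃ q < s, pair x q ∈ C i) then 2 ^ i else 0`, a finite
sum over the fixed `k` by induction on `k`, the bounded search by `Nat.rec` on `s`), hence
`g x = f x (least s with l + 1 ≤ card (bits k (f x s)))` is partial recursive (`Partrec.rfind`, or
`Nat.Partrec` by `Computable.find`/`Partrec.rfindOpt`: search the least `s` such that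
`card (bits k (f x s)) ≥ l + 1` and return `f x s`; `x ↦ card (bits k x)` for `x < 2 ^ k` is computable
because `k` is fixed), and defined for all `x ∈ P`. Take a code of it
(`Nat.Partrec.Code.exists_code`).
-/

set_option autoImplicit false

namespace Pool.Agent.RCC

/-- The number of the binary digits is computable. -/
private theorem primrec_card_bits (k : ℕ) : Primrec fun x : ℕ => (bits k x).card := by
  induction k with
  | zero =>
    have : (fun x : ℕ => (bits 0 x).card) = fun _ => 0 := by
      funext x
      simp [bits]
    rw [this]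
    exact Primrec.const 0
  | succ k ih =>
    have : (fun x : ℕ => (bits (k + 1) x).card) = fun x => (bits k x).card + x / 2 ^ k % 2 := by
      funext x
      unfold bits
      rw [Finset.range_add_one, Finset.filter_insert]
      have h0 : x.testBit k = decide (x / 2 ^ k % 2 = 1) := Nat.testBit_eq_decide_div_mod_eq
      split_ifs with h
      · rw [Finset.card_insert_of_notMem (by simp)]
        rw [h0, decide_eq_true_eq] at h
        rw [h]
      · rw [h0, decide_eq_true_eq] at h
        have : x / 2 ^ k % 2 = 0 := by omega
        rw [this, add_zero]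
    rw [this]
    exact Primrec.nat_add.comp ih
      (Primrec.nat_mod.comp (Primrec.nat_div.comp Primrec.id (Primrec.const _)) (Primrec.const 2))

/-- Bounded search. -/
private theorem computable_search {g : ℕ → Bool} (hg : Computable g) :
    ∃ h : ℕ × ℕ → Bool, Computable h ∧
      ∀ x s, h (x, s) = true ↔ ∃ q < s, g (Nat.pair x q) = true := by
  let h : ℕ × ℕ → Bool := fun z =>
    Nat.rec (motive := fun _ => Bool) false (fun s b => b || g (Nat.pair z.1 s)) z.2
  refine ⟨h, ?_, ?_⟩
  · have hp : Computable₂ fun (z : ℕ × ℕ) (y : ℕ × Bool) => (y.2 || g (Nat.pair z.1 y.1)) := by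
      have h1 : Computable fun w : (ℕ × ℕ) × (ℕ × Bool) => w.2.2 :=
        Computable.snd.comp Computable.snd
      have h2 : Computable fun w : (ℕ × ℕ) × (ℕ × Bool) => Nat.pair w.1.1 w.2.1 :=
        Primrec₂.natPair.to_comp.comp (Computable.fst.comp Computable.fst)
          (Computable.fst.comp Computable.snd)
      exact Primrec.or.to_comp.comp h1 (hg.comp h2)
    exact Computable.nat_rec Computable.snd (Computable.const false) hp
  · intro x s
    induction s with
    | zero =>
      show false = true ↔ _
      simp
    | succ s ih =>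
      show (h (x, s) || g (Nat.pair x s)) = true ↔ _
      rw [Bool.or_eq_true, ih]
      constructor
      · rintro (⟨q, hq, hq'⟩ | hq)
        · exact ⟨q, by omega, hq'⟩
        · exact ⟨s, by omega, hq⟩
      · rintro ⟨q, hq, hq'⟩
        rcases Nat.lt_succ_iff_lt_or_eq.1 hq with h1 | h1
        · exact Or.inl ⟨q, h1, hq'⟩
        · subst h1
          exact Or.inr hq'

/-- The number with given binary digits is computable. -/
private theorem computable_digits (h : ℕ → ℕ × ℕ → Bool) (hh : ∀ i, Computable (h i)) (n : ℕ) :
    ∃ F : ℕ × ℕ → ℕ, Computable F ∧ ∀ z, F z < 2 ^ n ∧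
      ∀ i, (F z).testBit i = true ↔ i < n ∧ h i z = true := by
  induction n with
  | zero => exact ⟨fun _ => 0, Computable.const 0, fun z => ⟨by simp, fun i => by simp⟩⟩
  | succ n ih =>
    obtain ⟨F, hF, hF'⟩ := ih
    refine ⟨fun z => (bif h n z then 2 ^ n else 0) + F z, ?_, ?_⟩
    · exact Primrec.nat_add.to_comp.comp
        (Computable.cond (hh n) (Computable.const _) (Computable.const _)) hF
    · intro z
      obtain ⟨h1, h2⟩ := hF' z
      have hp : 2 ^ (n + 1) = 2 ^ n + 2 ^ n := by ring
      cases hn : h n z with
      | false =>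
        refine ⟨?_, fun i => ?_⟩
        · simp only [hn, cond_false, zero_add]
          omega
        · simp only [hn, cond_false, zero_add]
          rw [h2 i]
          constructor
          · rintro ⟨a, b⟩
            exact ⟨by omega, b⟩
          · rintro ⟨a, b⟩
            refine ⟨?_, b⟩
            rcases Nat.lt_succ_iff_lt_or_eq.1 a with a | a
            · exact a
            · subst a
              rw [hn] at b
              exact absurd b (by simp)
      | true =>
        refine ⟨?_, fun i => ?_⟩
        · simp only [hn, cond_true]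
          omega
        · simp only [hn, cond_true]
          rcases lt_trichotomy i n with hi | hi | hi
          · rw [Nat.testBit_two_pow_add_gt hi, h2 i]
            constructor
            · rintro ⟨a, b⟩
              exact ⟨by omega, b⟩
            · rintro ⟨a, b⟩
              exact ⟨hi, b⟩
          · subst hi
            rw [Nat.testBit_two_pow_add_eq]
            have : (F z).testBit i = false := Nat.testBit_lt_two_pow h1
            rw [this]
            simp [hn]
          · have : (2 ^ n + F z).testBit i = false := by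
              apply Nat.testBit_lt_two_pow
              have : 2 ^ (n + 1) ≤ 2 ^ i := Nat.pow_le_pow_right (by norm_num) hi
              omega
            rw [this]
            constructor
            · intro h
              exact absurd h (by simp)
            · rintro ⟨a, b⟩
              omega

theorem exists_code {P Q : Set ℕ} {rP rQ : ℕ → ℕ → Prop} {k l : ℕ} (hQ : RecOrd Q rQ)
    (hQn : ¬ Covered Q rQ l) (C : Fin k → Set ℕ)
    (hC : ∀ i, RecChain (lexSet P Q) (lexRel rP rQ) (C i))
    (hcov : ∀ x ∈ lexSet P Q, ∃ i, x ∈ C i) :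
    ∃ c : Nat.Partrec.Code, ∀ x ∈ P, ∃ a, a ∈ c.eval x ∧ a < 2 ^ k ∧ l + 1 ≤ (bits k a).card ∧
      ∀ i ∈ bits k a, ∃ hi : i < k, ∃ q ∈ Q, Nat.pair x q ∈ C ⟨i, hi⟩ := by
  classical
  -- deciders
  have hdec : ∀ i : ℕ, ∃ g : ℕ → Bool, Computable g ∧
      ∀ n, g n = true ↔ ∃ hi : i < k, n ∈ C ⟨i, hi⟩ := by
    intro i
    by_cases hi : i < k
    · obtain ⟨g, hg, hg'⟩ := ComputablePred.computable_iff.1 (hC ⟨i, hi⟩).comp
      refine ⟨g, hg, fun n => ?_⟩
      have := congrFun hg' n
      constructor
      · intro h
        exact ⟨hi, this.mpr h⟩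
      · rintro ⟨_, h⟩
        exact this.mp h
    · refine ⟨fun _ => false, Computable.const false, fun n => ?_⟩
      constructor
      · intro h
        exact absurd h (by simp)
      · rintro ⟨h, _⟩
        exact absurd h hi
  choose g hg hg' using hdec
  choose h hh hh' using fun i => computable_search (hg i)
  obtain ⟨F, hF, hF'⟩ := computable_digits h hh k
  -- the search
  let p : ℕ → ℕ → Bool := fun x s => decide (l + 1 ≤ (bits k (F (x, s))).card)
  have hp : Computable₂ p := by
    have h1 : Computable fun z : ℕ × ℕ => (bits k (F z)).card :=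
      (primrec_card_bits k).to_comp.comp hF
    have h2 : Computable fun z : ℕ × ℕ => decide (l + 1 ≤ (bits k (F z)).card) :=
      Primrec.nat_le.decide.to_comp.comp (Computable.const (l + 1)) h1
    exact h2
  have hG : Partrec fun x : ℕ => (Nat.rfind fun s => Part.some (p x s)).map fun s => F (x, s) := by
    refine Partrec.map (Partrec.rfind ?_) hF.to₂
    exact hp.partrec₂
  obtain ⟨c, hc⟩ := Nat.Partrec.Code.exists_code.1 (Partrec.nat_iff.1 hG)
  refine ⟨c, fun x hx => ?_⟩
  -- the set of the colours of the copy
  let S : Finset (Fin k) := Finset.univ.filter fun i => ∃ q, Nat.pair x q ∈ C i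
  have hS : l + 1 ≤ S.card := by
    by_contra hcon
    apply hQn
    refine covered_mono (k := S.card) ?_ (by omega)
    refine ⟨fun j => {q | Nat.pair x q ∈ C (S.equivFin.symm j : Fin k)}, fun j => ?_, ?_⟩
    · have hCj := hC (S.equivFin.symm j : Fin k)
      refine ⟨?_, ?_, ?_⟩
      · intro q hq
        have := (hCj.sub hq).2
        rw [Nat.unpair_pair] at this
        exact this
      · exact lex_cp_comp hCj.comp
          (Primrec₂.natPair.to_comp.comp (Computable.const x) Computable.id)
      · intro a ha b hb
        rcases hCj.chain _ ha _ hb with h1 | h1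
        · left
          rcases h1 with ⟨_, h2⟩ | ⟨h2, _⟩
          · simpa [Nat.unpair_pair] using h2
          · exact absurd (by simp) h2
        · right
          rcases h1 with ⟨_, h2⟩ | ⟨h2, _⟩
          · simpa [Nat.unpair_pair] using h2
          · exact absurd (by simp) h2
    · intro q hq
      obtain ⟨i, hi⟩ := hcov (Nat.pair x q) ⟨by simpa using hx, by simpa using hq⟩
      have hiS : i ∈ S := Finset.mem_filter.2 ⟨Finset.mem_univ _, q, hi⟩
      refine ⟨S.equivFin ⟨i, hiS⟩, ?_⟩
      show Nat.pair x q ∈ C (S.equivFin.symm (S.equivFin ⟨i, hiS⟩) : Fin k)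
      rw [Equiv.symm_apply_apply]
      exact hi
  have hmem : ∀ s i, i ∈ bits k (F (x, s)) ↔ ∃ hi : i < k, ∃ q < s, Nat.pair x q ∈ C ⟨i, hi⟩ := by
    intro s i
    unfold bits
    rw [Finset.mem_filter, Finset.mem_range, (hF' (x, s)).2 i, hh' i x s]
    constructor
    · rintro ⟨hi, _, q, hq, h1⟩
      obtain ⟨_, h2⟩ := (hg' i _).1 h1
      exact ⟨hi, q, hq, h2⟩
    · rintro ⟨hi, q, hq, h1⟩
      exact ⟨hi, hi, q, hq, (hg' i _).2 ⟨hi, h1⟩⟩
  have hex : ∃ s, p x s = true := by
    have hq : ∀ i : Fin k, ∃ q, i ∈ S → Nat.pair x q ∈ C i := by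
      intro i
      by_cases hi : i ∈ S
      · obtain ⟨q, hq⟩ := (Finset.mem_filter.1 hi).2
        exact ⟨q, fun _ => hq⟩
      · exact ⟨0, fun h => absurd h hi⟩
    choose q hq using hq
    refine ⟨(Finset.univ.sup q) + 1, ?_⟩
    have hsub : S.map Fin.valEmbedding ⊆ bits k (F (x, (Finset.univ.sup q) + 1)) := by
      intro i hi
      obtain ⟨j, hj, rfl⟩ := Finset.mem_map.1 hi
      rw [hmem]
      refine ⟨j.2, q j, ?_, hq j hj⟩
      exact Nat.lt_succ_of_le (Finset.le_sup (f := q) (Finset.mem_univ j))
    have := Finset.card_le_card hsub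
    rw [Finset.card_map] at this
    exact decide_eq_true (by omega)
  obtain ⟨s0, hs0⟩ := hex
  have hdom : (Nat.rfind fun s => Part.some (p x s)).Dom := by
    rw [Nat.rfind_dom]
    exact ⟨s0, by rw [hs0]; exact Part.mem_some _, fun _ => trivial⟩
  obtain ⟨s, hs⟩ := Part.dom_iff_mem.1 hdom
  have hps : p x s = true := by
    have := Nat.rfind_spec hs
    exact (Part.mem_some_iff.1 this).symm
  refine ⟨F (x, s), ?_, (hF' (x, s)).1, of_decide_eq_true hps, ?_⟩
  · rw [hc]
    exact Part.mem_map (fun s => F (x, s)) hs
  · intro i hi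
    obtain ⟨hik, q, _, h1⟩ := (hmem s i).1 hi
    refine ⟨hik, q, ?_, h1⟩
    have := ((hC ⟨i, hik⟩).sub h1).2
    rw [Nat.unpair_pair] at this
    exact this

end Pool.Agent.RCC
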