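import Pool.Agent.RCC.Pos

/-!
RCC/Force (MP_920410_lc). The m-fold version of Szemeredi's strategy.
-/

set_option autoImplicit false

namespace Pool.Agent.RCC

/-- The goal: above the down-set `B` of the position `s₀` (and incomparable to the rest of it) there
are `w` disjoint up-closed chains, the `i`-th one with at least `i * m` colours. -/
def Phi (u m k w : ℕ) (s₀ : Pos) (B : Finset ℕ) (s : Pos) : Prop :=
  Ord u s ∧ Leg m k s ∧ s₀ <+: s ∧
    (∀ j, s₀.length ≤ j → j < s.length → ∀ i < s₀.length, (i ∈ dn s j ↔ i ∈ B)) ∧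
    ∃ C : ℕ → Finset ℕ,
      (∀ i, 1 ≤ i → i ≤ w → UC s (C i) ∧ (∀ x ∈ C i, s₀.length ≤ x) ∧
        i * m ≤ (cols s (C i)).card) ∧
      ∀ i j, 1 ≤ i → i < j → j ≤ w → Disjoint (C i) (C j)

theorem dn_pre {s t : Pos} (h : s <+: t) {i : ℕ} (hi : i < s.length) : dn t i = dn s i := by
  obtain ⟨r, rfl⟩ := h
  exact dn_append_lt hi

theorem cl_pre {s t : Pos} (h : s <+: t) {i : ℕ} (hi : i < s.length) : cl t i = cl s i := by
  obtain ⟨r, rfl⟩ := h
  exact cl_append_lt hi

theorem cols_pre {s t : Pos} (h : s <+: t) {C : Finset ℕ} (hC : ∀ i ∈ C, i < s.length) :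
    cols t C = cols s C := by
  unfold cols
  exact Finset.biUnion_congr rfl fun i hi => cl_pre h (hC i hi)

theorem uc_pre {s t : Pos} (h : s <+: t) {C : Finset ℕ} (hC : UC s C)
    (hnew : ∀ j, s.length ≤ j → j < t.length → ∀ i ∈ C, i ∉ dn t j) : UC t C := by
  refine ⟨fun i hi => (hC.lt i hi).trans_le h.length_le, fun i hi j hj hij => ?_,
    fun i hi j hj hij => ?_⟩
  · rcases lt_or_ge j s.length with h1 | h1
    · rw [dn_pre h h1] at hij
      exact hC.up i hi j h1 hij
    · exact absurd hij (hnew j h1 hj i hi)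
  · rw [dn_pre h (hC.lt j hj)]
    exact hC.chain i hi j hj hij

theorem disj_cols {m k : ℕ} {s : Pos} (hs : Leg m k s) {C C' : Finset ℕ} (hC : UC s C)
    (hC' : UC s C') (hd : Disjoint C C') : Disjoint (cols s C) (cols s C') := by
  rw [Finset.disjoint_left]
  intro c hc hc'
  unfold cols at hc hc'
  rw [Finset.mem_biUnion] at hc hc'
  obtain ⟨i, hi, hci⟩ := hc
  obtain ⟨j, hj, hcj⟩ := hc'
  rw [Finset.disjoint_left] at hd
  rcases lt_trichotomy i j with h | h | h
  · have h1 : i ∉ dn s j := fun h1 => hd (hC.up i hi j (hC'.lt j hj) h1) hj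
    exact Finset.disjoint_left.1 (hs.disj j (hC'.lt j hj) i h h1) hci hcj
  · subst h
    exact hd hi hj
  · have h1 : j ∉ dn s i := fun h1 => hd hi (hC'.up j hj i (hC.lt i hi) h1)
    exact Finset.disjoint_left.1 (hs.disj i (hC.lt i hi) j h h1) hcj hci

theorem panti_pre {s t : Pos} (h : s <+: t) {A : Finset ℕ} (hA : PAnti t A)
    (hlt : ∀ i ∈ A, i < s.length) : PAnti s A := by
  refine ⟨hlt, fun i hi j hj => ?_⟩
  have := hA.2 i hi j hj
  rwa [dn_pre h (hlt j hj)] at this

/-- The positions above `s₀` and `B`. -/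
structure Base (u m k : ℕ) (s₀ : Pos) (B : Finset ℕ) (s : Pos) : Prop where
  ord : Ord u s
  leg : Leg m k s
  pre : s₀ <+: s
  iff : ∀ j, s₀.length ≤ j → j < s.length → ∀ i < s₀.length, (i ∈ dn s j ↔ i ∈ B)

/-- The state of the loop. -/
def Loop (u m k w : ℕ) (s₀ : Pos) (B : Finset ℕ) (U : ℕ) (s : Pos) : Prop :=
  Base u m k s₀ B s ∧ ∃ R : Finset ℕ, UC s R ∧ (∀ x ∈ R, s₀.length ≤ x) ∧ U ≤ (cols s R).card ∧
    ∃ C : ℕ → Finset ℕ,
      (∀ i, 1 ≤ i → i ≤ w → UC s (C i) ∧ (∀ x ∈ C i, s₀.length ≤ x) ∧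
        i * m ≤ (cols s (C i)).card) ∧
      (∀ i j, 1 ≤ i → i < j → j ≤ w → Disjoint (C i) (C j)) ∧
      ∀ i, 1 ≤ i → i ≤ w → Disjoint (C i) R

/-- The hypotheses on `s₀` and `B`. -/
structure Hyp (u w : ℕ) (s₀ : Pos) (B : Finset ℕ) : Prop where
  lt : ∀ i ∈ B, i < s₀.length
  down : ∀ i ∈ B, ∀ h ∈ dn s₀ i, h ∈ B
  anti : ∀ A, PAnti s₀ A → Disjoint A B → A.card + w ≤ u

theorem reforce {u m k w : ℕ} (IH : ∀ (s : Pos) (B : Finset ℕ), Ord u s → Leg m k s →
      (∀ i ∈ B, i < s.length) → (∀ i ∈ B, ∀ h ∈ dn s i, h ∈ B) →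
      (∀ A, PAnti s A → Disjoint A B → A.card + w ≤ u) → Frc u m k (Phi u m k w s B) s)
    {s₀ : Pos} {B : Finset ℕ} (hB : Hyp u (w + 1) s₀ B) {t : Pos} (ht : Base u m k s₀ B t)
    {R : Finset ℕ} (hR : UC t R) (hRn : ∀ x ∈ R, s₀.length ≤ x) {U : ℕ}
    (hU : U ≤ (cols t R).card) : Frc u m k (Loop u m k w s₀ B U) t := by
  have hlen := ht.pre.length_le
  set B' : Finset ℕ := B ∪ (Finset.Ico s₀.length t.length \ R) with hB'
  have hmem : ∀ i, i ∈ B' ↔ i ∈ B ∨ ((s₀.length ≤ i ∧ i < t.length) ∧ i ∉ R) := by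
    intro i
    simp [hB']
  have h1 : ∀ i ∈ B', i < t.length := by
    intro i hi
    rcases (hmem i).1 hi with h | h
    · exact (hB.lt i h).trans_le hlen
    · exact h.1.2
  have h2 : ∀ i ∈ B', ∀ h ∈ dn t i, h ∈ B' := by
    intro i hi h hh
    rcases (hmem i).1 hi with h3 | h3
    · rw [dn_pre ht.pre (hB.lt i h3)] at hh
      exact (hmem h).2 (Or.inl (hB.down i h3 h hh))
    · rcases lt_or_ge h s₀.length with h4 | h4
      · exact (hmem h).2 (Or.inl ((ht.iff i h3.1.1 h3.1.2 h h4).1 hh))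
      · have h5 := ht.ord.down i h3.1.2 h hh
        exact (hmem h).2 (Or.inr ⟨⟨h4, h5.trans h3.1.2⟩,
          fun h6 => h3.2 (hR.up h h6 i h3.1.2 hh)⟩)
  have h3 : ∀ A, PAnti t A → Disjoint A B' → A.card + w ≤ u := by
    intro A hA hd
    rw [Finset.disjoint_left] at hd
    have h4 : (A.filter fun i => i < s₀.length).card + (w + 1) ≤ u := by
      refine hB.anti _ (panti_pre ht.pre ⟨fun i hi => hA.1 i (Finset.mem_filter.1 hi).1,
        fun i hi j hj => hA.2 i (Finset.mem_filter.1 hi).1 j (Finset.mem_filter.1 hj).1⟩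
        fun i hi => (Finset.mem_filter.1 hi).2) ?_
      rw [Finset.disjoint_left]
      exact fun i hi hiB => hd (Finset.mem_filter.1 hi).1 ((hmem i).2 (Or.inl hiB))
    have h5 : (A.filter fun i => ¬ i < s₀.length).card ≤ 1 := by
      have h6 : ∀ i ∈ A.filter (fun i => ¬ i < s₀.length), i ∈ A ∧ i ∈ R := by
        intro i hi
        obtain ⟨h7, h8⟩ := Finset.mem_filter.1 hi
        refine ⟨h7, ?_⟩
        by_contra h9
        exact hd h7 ((hmem i).2 (Or.inr ⟨⟨not_lt.1 h8, hA.1 i h7⟩, h9⟩))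
      rw [Finset.card_le_one]
      intro i hi j hj
      rcases lt_trichotomy i j with h | h | h
      · exact absurd (hR.chain i (h6 i hi).2 j (h6 j hj).2 h) (hA.2 i (h6 i hi).1 j (h6 j hj).1)
      · exact h
      · exact absurd (hR.chain j (h6 j hj).2 i (h6 i hi).2 h) (hA.2 j (h6 j hj).1 i (h6 i hi).1)
    have h6 := Finset.card_filter_add_card_filter_not (s := A) (fun i => i < s₀.length)
    omega
  refine (IH t B' ht.ord ht.leg h1 h2 h3).bind ?_
  rintro t' ⟨ho, hl, hp, hiff, C, hC, hCd⟩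
  have hp' : s₀ <+: t' := ht.pre.trans hp
  refine Frc.done _ ⟨⟨ho, hl, hp', ?_⟩, R, ?_, hRn, ?_, C, ?_, hCd, ?_⟩
  · intro j hj1 hj2 i hi
    rcases lt_or_ge j t.length with h | h
    · rw [dn_pre hp h]
      exact ht.iff j hj1 h i hi
    · rw [hiff j h hj2 i (hi.trans_le hlen), hmem]
      constructor
      · rintro (h4 | h4)
        · exact h4
        · exact absurd hi (not_lt.2 h4.1.1)
      · exact Or.inl
  · refine uc_pre hp hR fun j hj1 hj2 i hi => ?_
    rw [hiff j hj1 hj2 i (hR.lt i hi), hmem]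
    rintro (h4 | h4)
    · exact absurd (hB.lt i h4) (not_lt.2 (hRn i hi))
    · exact h4.2 hi
  · rw [cols_pre hp hR.lt]
    exact hU
  · intro i hi1 hi2
    obtain ⟨h4, h5, h6⟩ := hC i hi1 hi2
    exact ⟨h4, fun x hx => hlen.trans (h5 x hx), h6⟩
  · intro i hi1 hi2
    obtain ⟨h4, h5, h6⟩ := hC i hi1 hi2
    rw [Finset.disjoint_left]
    exact fun x hx hxR => absurd (hR.lt x hxR) (not_lt.2 (h5 x hx))

theorem done_loop {u m k w : ℕ} {s₀ : Pos} {B : Finset ℕ} {t : Pos}
    (ht : Loop u m k w s₀ B ((w + 1) * m) t) : Phi u m k (w + 1) s₀ B t := by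
  obtain ⟨hb, R, hR, hRn, hU, C, hC, hCd, hCR⟩ := ht
  refine ⟨hb.ord, hb.leg, hb.pre, hb.iff, fun i => if i = w + 1 then R else C i, ?_, ?_⟩
  · intro i h1 h2
    by_cases h : i = w + 1
    · subst h
      simp only [if_true]
      exact ⟨hR, hRn, hU⟩
    · simp only [if_neg h]
      exact hC i h1 (by omega)
  · intro i j h1 h2 h3
    have hi : i ≠ w + 1 := by omega
    simp only [if_neg hi]
    by_cases h : j = w + 1
    · simp only [if_pos h]
      exact hCR i h1 (by omega)
    · simp only [if_neg h]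
      exact hCd i j h1 h2 (by omega)

theorem top_uc {u m k : ℕ} {s₀ : Pos} {B : Finset ℕ} {t : Pos} (ht : Base u m k s₀ B t)
    {X R : Finset ℕ} (hR : UC t R) (hRn : ∀ x ∈ R, s₀.length ≤ x) :
    UC (t ++ [(B ∪ Finset.Ico s₀.length t.length, X)]) (insert t.length R) := by
  have hlen : (t ++ [(B ∪ Finset.Ico s₀.length t.length, X)]).length = t.length + 1 := by simp
  refine ⟨?_, ?_, ?_⟩
  · intro i hi
    rw [hlen]
    rcases Finset.mem_insert.1 hi with rfl | h
    · omega
    · have := hR.lt i h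
      omega
  · intro i hi j hj hij
    rw [hlen] at hj
    rcases Nat.lt_succ_iff_lt_or_eq.1 hj with h | h
    · rw [dn_append_lt h] at hij
      rcases Finset.mem_insert.1 hi with rfl | h1
      · exact absurd (ht.ord.down j h _ hij) (by omega)
      · exact Finset.mem_insert_of_mem (hR.up i h1 j h hij)
    · rw [h]
      exact Finset.mem_insert_self _ _
  · intro i hi j hj hij
    rcases Finset.mem_insert.1 hj with rfl | h1
    · rcases Finset.mem_insert.1 hi with rfl | h2
      · omega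
      · rw [dn_last]
        exact Finset.mem_union_right _ (Finset.mem_Ico.2 ⟨hRn i h2, hR.lt i h2⟩)
    · have h3 := hR.lt j h1
      rw [dn_append_lt h3]
      rcases Finset.mem_insert.1 hi with rfl | h2
      · omega
      · exact hR.chain i h2 j h1 hij

theorem cols_top {t : Pos} {S X R : Finset ℕ} (hR : ∀ i ∈ R, i < t.length) :
    cols (t ++ [(S, X)]) (insert t.length R) = X ∪ cols t R := by
  have h1 : cols (t ++ [(S, X)]) (insert t.length R) =
      cl (t ++ [(S, X)]) t.length ∪ cols (t ++ [(S, X)]) R := by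
    unfold cols
    rw [Finset.biUnion_insert]
  rw [h1, cl_last, cols_pre (List.prefix_append t [(S, X)]) hR]

theorem loop {u m k w : ℕ} (hm : 1 ≤ m) (IH : ∀ (s : Pos) (B : Finset ℕ), Ord u s → Leg m k s →
      (∀ i ∈ B, i < s.length) → (∀ i ∈ B, ∀ h ∈ dn s i, h ∈ B) →
      (∀ A, PAnti s A → Disjoint A B → A.card + w ≤ u) → Frc u m k (Phi u m k w s B) s)
    {s₀ : Pos} {B : Finset ℕ} (hB : Hyp u (w + 1) s₀ B) (n : ℕ) :
    ∀ U, U + n = (w + 1) * m → ∀ t, Loop u m k w s₀ B U t →
      Frc u m k (Phi u m k (w + 1) s₀ B) t := by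
  induction n with
  | zero =>
    intro U hU t ht
    rw [Nat.add_zero] at hU
    subst hU
    exact Frc.done _ (done_loop ht)
  | succ n ih =>
    intro U hU t ht
    by_cases hdone : Loop u m k w s₀ B ((w + 1) * m) t
    · exact Frc.done _ (done_loop hdone)
    have ht' := ht
    obtain ⟨hb, R, hR, hRn, hUR, C, hC, hCd, hCR⟩ := ht'
    have hsmall : (cols t R).card < (w + 1) * m := by
      by_contra h
      exact hdone ⟨hb, R, hR, hRn, not_lt.1 h, C, hC, hCd, hCR⟩
    have hlen := hb.pre.length_le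
    set S : Finset ℕ := B ∪ Finset.Ico s₀.length t.length with hS
    have hmem : ∀ i, i ∈ S ↔ i ∈ B ∨ (s₀.length ≤ i ∧ i < t.length) := by
      intro i
      simp [hS]
    have hok : Ok u t S := by
      refine ⟨?_, ?_, ?_⟩
      · intro i hi
        rcases (hmem i).1 hi with h | h
        · exact (hB.lt i h).trans_le hlen
        · exact h.2
      · intro i hi h hh
        rcases (hmem i).1 hi with h3 | h3
        · rw [dn_pre hb.pre (hB.lt i h3)] at hh
          exact (hmem h).2 (Or.inl (hB.down i h3 h hh))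
        · rcases lt_or_ge h s₀.length with h4 | h4
          · exact (hmem h).2 (Or.inl ((hb.iff i h3.1 h3.2 h h4).1 hh))
          · exact (hmem h).2 (Or.inr ⟨h4, (hb.ord.down i h3.2 h hh).trans h3.2⟩)
      · intro A hA hd
        rw [Finset.disjoint_left] at hd
        have h4 : A.card + (w + 1) ≤ u := by
          refine hB.anti A (panti_pre hb.pre hA fun i hi => ?_) ?_
          · by_contra h5
            exact hd hi ((hmem i).2 (Or.inr ⟨not_lt.1 h5, hA.1 i hi⟩))
          · rw [Finset.disjoint_left]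
            exact fun i hi hiB => hd hi ((hmem i).2 (Or.inl hiB))
        omega
    refine Frc.step t S hok fun X hX => ?_
    have hb' : Base u m k s₀ B (t ++ [(S, X)]) := by
      refine ⟨ord_snoc hb.ord hok X, leg_snoc hb.leg hX,
        hb.pre.trans (List.prefix_append t [(S, X)]), ?_⟩
      intro j hj1 hj2 i hi
      have hl : (t ++ [(S, X)]).length = t.length + 1 := by simp
      rw [hl] at hj2
      rcases Nat.lt_succ_iff_lt_or_eq.1 hj2 with h | h
      · rw [dn_append_lt h]
        exact hb.iff j hj1 h i hi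
      · subst h
        rw [dn_last, hmem]
        constructor
        · rintro (h4 | h4)
          · exact h4
          · omega
        · exact Or.inl
    by_cases hX' : X ⊆ cols t R
    · -- a colour set inside that of `R`
      have hw : 1 ≤ w := by
        by_contra h
        have h0 : w = 0 := by omega
        have h1 := hX.2.1.trans (Finset.card_le_card hX')
        rw [h0] at hsmall
        omega
      obtain ⟨h1, h2, h3⟩ := hC w hw le_rfl
      have h4 : Disjoint X (cols t (C w)) :=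
        (disj_cols hb.leg hR h1 (hCR w hw le_rfl).symm).mono_left hX'
      have h5 : (w + 1) * m ≤ (cols (t ++ [(S, X)]) (insert t.length (C w))).card := by
        rw [cols_top h1.lt, Finset.card_union_of_disjoint h4]
        have := hX.2.1
        nlinarith
      refine (reforce IH hB hb' (top_uc hb h1 h2) ?_ h5).bind fun t' h => Frc.done _ (done_loop h)
      intro x hx
      rcases Finset.mem_insert.1 hx with rfl | h
      · exact hlen
      · exact h2 x h
    · have h5 : U + 1 ≤ (cols (t ++ [(S, X)]) (insert t.length R)).card := by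
        rw [cols_top hR.lt]
        have h6 : cols t R ⊂ X ∪ cols t R := by
          rw [Finset.ssubset_iff_subset_ne]
          refine ⟨Finset.subset_union_right, fun h => hX' ?_⟩
          rw [h]
          exact Finset.subset_union_left
        have := Finset.card_lt_card h6
        omega
      refine (reforce IH hB hb' (top_uc hb hR hRn) ?_ h5).bind fun t' h => ih (U + 1) (by omega) t' h
      intro x hx
      rcases Finset.mem_insert.1 hx with rfl | h
      · exact hlen
      · exact hRn x h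

theorem force (u m k : ℕ) (hm : 1 ≤ m) (w : ℕ) : ∀ (s : Pos) (B : Finset ℕ), Ord u s → Leg m k s →
    (∀ i ∈ B, i < s.length) → (∀ i ∈ B, ∀ h ∈ dn s i, h ∈ B) →
    (∀ A, PAnti s A → Disjoint A B → A.card + w ≤ u) → Frc u m k (Phi u m k w s B) s := by
  induction w with
  | zero =>
    intro s B ho hl _ _ _
    refine Frc.done _ ⟨ho, hl, List.prefix_rfl, fun j h1 h2 => absurd h2 (by omega), fun _ => ∅,
      fun i h1 h2 => absurd h1 (by omega), fun i j h1 h2 h3 => absurd h3 (by omega)⟩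
  | succ w ih =>
    intro s B ho hl h1 h2 h3
    have hB : Hyp u (w + 1) s B := ⟨h1, h2, h3⟩
    have hb : Base u m k s B s := ⟨ho, hl, List.prefix_rfl, fun j h1 h2 => absurd h2 (by omega)⟩
    have hR : UC s ∅ := ⟨by simp, by simp, by simp⟩
    exact (reforce ih hB hb hR (by simp) (Nat.zero_le _)).bind
      fun t ht => loop hm ih hB ((w + 1) * m) 0 (Nat.zero_add _) t ht

theorem count {u m k : ℕ} {s : Pos} (h : Phi u m k u [] ∅ s) : m * (u * (u + 1) / 2) ≤ k := by
  obtain ⟨_, hl, _, _, C, hC, hCd⟩ := h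
  have h1 : ((Finset.Icc 1 u).biUnion fun i => cols s (C i)).card =
      ∑ i ∈ Finset.Icc 1 u, (cols s (C i)).card := by
    refine Finset.card_biUnion fun i hi j hj hij => ?_
    rw [Finset.mem_coe, Finset.mem_Icc] at hi hj
    rcases lt_or_gt_of_ne hij with h | h
    · exact disj_cols hl (hC i hi.1 hi.2).1 (hC j hj.1 hj.2).1 (hCd i j hi.1 h hj.2)
    · exact (disj_cols hl (hC j hj.1 hj.2).1 (hC i hi.1 hi.2).1 (hCd j i hj.1 h hi.2)).symm
  have h2 : ((Finset.Icc 1 u).biUnion fun i => cols s (C i)) ⊆ Finset.range k := by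
    intro c hc
    rw [Finset.mem_biUnion] at hc
    obtain ⟨i, hi, hc⟩ := hc
    rw [Finset.mem_Icc] at hi
    unfold cols at hc
    rw [Finset.mem_biUnion] at hc
    obtain ⟨x, hx, hc⟩ := hc
    exact hl.sub x ((hC i hi.1 hi.2).1.lt x hx) hc
  have h3 : ∑ i ∈ Finset.Icc 1 u, i * m ≤ ∑ i ∈ Finset.Icc 1 u, (cols s (C i)).card := by
    refine Finset.sum_le_sum fun i hi => ?_
    rw [Finset.mem_Icc] at hi
    exact (hC i hi.1 hi.2).2.2
  have h4 : ∑ i ∈ Finset.Icc 1 u, i = u * (u + 1) / 2 := by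
    have h5 : ∑ i ∈ Finset.range (u + 1), i = (u + 1) * u / 2 := by
      rw [Finset.sum_range_id]
      simp
    have h6 : ∑ i ∈ Finset.range (u + 1), i = ∑ i ∈ Finset.Icc 1 u, i := by
      rw [Finset.range_eq_Ico, Finset.sum_eq_sum_Ico_succ_bot (by omega)]
      simp
      rfl
    rw [← h6, h5, mul_comm]
  have h5 := (h3.trans h1.symm.le).trans (Finset.card_le_card h2)
  rw [← Finset.sum_mul, h4, Finset.card_range] at h5
  rw [mul_comm]
  exact h5

end Pool.Agent.RCC
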