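import Pool.Agent.RCC.Ext
import Pool.Agent.RCC.Force
import Pool.Agent.RCC.Tree
import Pool.Agent.RCC.BlkC
import Pool.Agent.RCC.BlkO
import Pool.Agent.RCC.BlkR

/-!
RCC/Final (MP_920410_lc). `b (u * v) ≥ (u * (u + 1) / 2) * b v` and the dichotomy.
-/

set_option autoImplicit false

namespace Pool.Agent.RCC

theorem mem_bits {k x i : ℕ} : i ∈ bits k x ↔ i < k ∧ x.testBit i = true := by
  simp [bits]

theorem exists_strat (u m k : ℕ) (hm : 1 ≤ m) : ∃ (D : Strat) (N : ℕ), Good D u N (2 ^ k) ∧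
    ∀ a : ℕ → ℕ, (∀ n, Pres D a n → a n < 2 ^ k ∧ m ≤ (bits k (a n)).card) →
      (∀ i j, i < j → Pres D a j → ¬ Lt D a i j → Disjoint (bits k (a i)) (bits k (a j))) →
      m * (u * (u + 1) / 2) ≤ k := by
  refine strat_of_frc u m k _ (Phi u m k u [] ∅) (fun s hs => count hs) ?_
  have h0 : ∀ A, PAnti [] A → A = ∅ := fun A hA => by
    rw [Finset.eq_empty_iff_forall_notMem]
    intro i hi
    exact absurd (hA.1 i hi) (by simp)
  refine force u m k hm u [] ∅ ⟨?_, ?_, ?_⟩ ⟨?_, ?_, ?_⟩ (by simp) (by simp) ?_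
  · intro j hj; simp at hj
  · intro j hj; simp at hj
  · intro A hA
    rw [h0 A hA]
    simp
  · intro j hj; simp at hj
  · intro j hj; simp at hj
  · intro j hj; simp at hj
  · intro A hA _
    rw [h0 A hA]
    simp

theorem core {u v k l : ℕ} (hu : 1 ≤ u) (hk : Cov (u * v) k) (hl : ¬ Cov v l) :
    (l + 1) * (u * (u + 1) / 2) ≤ k := by
  classical
  unfold Cov at hl
  push Not at hl
  obtain ⟨Q, rQ, hQ, hQw, hQn⟩ := hl
  obtain ⟨D, N, hD, hcol⟩ := exists_strat u (l + 1) k (by omega)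
  have hP : RecOrd (blkSet D) (blkRel D) :=
    ⟨blk_dom hD, blk_rel hD, fun x _ => Or.inl rfl, blk_antisymm hD, blk_trans hD⟩
  obtain ⟨C, hC, hcov⟩ := covLe_of_cov hk _ _ (lex_recOrd hP hQ)
    (lex_width hP hQ (blk_width hD hu) hQw.2)
  obtain ⟨c, hc⟩ := exists_code hQ hQn C hC hcov
  obtain ⟨a, x, h1, h2⟩ := blk_run hD c fun x hx => by
    obtain ⟨a, h1, h2, _⟩ := hc x hx
    exact ⟨a, h1, h2⟩
  have h3 : ∀ n, Pres D a n → a n < 2 ^ k ∧ l + 1 ≤ (bits k (a n)).card ∧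
      ∀ i ∈ bits k (a n), ∃ hi : i < k, ∃ q ∈ Q, Nat.pair (x n) q ∈ C ⟨i, hi⟩ := by
    intro n hn
    obtain ⟨h4, h5⟩ := h1 n hn
    obtain ⟨a', h6, h7, h8, h9⟩ := hc (x n) h4
    have h10 : a n = a' := Part.mem_unique h5 h6
    rw [h10]
    exact ⟨h7, h8, h9⟩
  refine hcol a (fun n hn => ⟨(h3 n hn).1, (h3 n hn).2.1⟩) fun i j hij hj hlt => ?_
  rw [Finset.disjoint_left]
  intro t ht ht'
  have hi : Pres D a i := fun j' hj' => hj j' (hj'.trans hij.le)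
  obtain ⟨hk1, q, _, hq⟩ := (h3 i hi).2.2 t ht
  obtain ⟨hk2, q', _, hq'⟩ := (h3 j hj).2.2 t ht'
  obtain ⟨h4, h5, h6⟩ := h2 i j hij hj hlt
  rcases (hC ⟨t, hk1⟩).chain _ hq _ hq' with h | h
  · unfold lexRel at h
    simp only [Nat.unpair_pair] at h
    rcases h with h | h
    · exact h4 h.1
    · exact h5 h.2
  · unfold lexRel at h
    simp only [Nat.unpair_pair] at h
    rcases h with h | h
    · exact h4 h.1.symm
    · exact h6 h.2

theorem b_le {w k : ℕ} (h : Cov w k) : b w ≤ (k : ℕ∞) :=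
  iInf_le (fun k : {k : ℕ // Cov w k} => ((k : ℕ) : ℕ∞)) ⟨k, h⟩

theorem le_b {w : ℕ} {c : ℕ∞} (h : ∀ k, Cov w k → c ≤ (k : ℕ∞)) : c ≤ b w :=
  le_iInf fun k => h k.1 k.2

/-- The product inequality. -/
theorem b_mul (u v : ℕ) (hu : 1 ≤ u) : ((u * (u + 1) / 2 : ℕ) : ℕ∞) * b v ≤ b (u * v) := by
  classical
  set T := u * (u + 1) / 2 with hT
  have hT1 : 1 ≤ T := by
    have : 2 ≤ u * (u + 1) := by nlinarith
    omega
  refine le_b fun k hk => ?_
  have h1 : Cov v (k / T) := by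
    by_contra h
    have h2 := core hu hk h
    rw [← hT] at h2
    have h3 : k < (k / T + 1) * T := by
      have := Nat.lt_div_mul_add (a := k) (b := T) (by omega)
      nlinarith
    omega
  calc ((T : ℕ) : ℕ∞) * b v ≤ (T : ℕ∞) * ((k / T : ℕ) : ℕ∞) := by gcongr; exact b_le h1
    _ = ((T * (k / T) : ℕ) : ℕ∞) := by push_cast; rfl
    _ ≤ (k : ℕ∞) := by exact_mod_cast Nat.mul_div_le k T

theorem b_mono {w w' : ℕ} (h : w ≤ w') : b w ≤ b w' :=
  le_b fun _ hk => b_le (cov_mono h hk)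

/-- The dichotomy. -/
theorem dichotomy : (∃ C : ℕ, ∀ w : ℕ, b w ≤ ((C * w ^ 2 : ℕ) : ℕ∞)) ∨
    ∀ C : ℕ, ∃ w₀ : ℕ, ∀ w : ℕ, w₀ ≤ w → ((C * w ^ 2 : ℕ) : ℕ∞) ≤ b w := by
  by_contra hcon
  push Not at hcon
  obtain ⟨h1, C, h2⟩ := hcon
  obtain ⟨v, hv⟩ := h1 (8 * C)
  have hv1 : 1 ≤ v := by
    rcases Nat.eq_zero_or_pos v with rfl | h
    · exfalso
      have h3 : Cov 0 0 := by
        intro P r hP hw
        refine ⟨fun i => i.elim0, fun i => i.elim0, fun x hx => ?_⟩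
        have := hw.2 {x} ⟨by simpa using hx, by simp⟩
        simp at this
      have h4 := b_le h3
      have h5 : (0 : ℕ∞) < b 0 := lt_of_le_of_lt bot_le hv
      simp only [Nat.cast_zero] at h4
      exact absurd h5 (not_lt.2 h4)
    · exact h
  obtain ⟨w, hw1, hw2⟩ := h2 v
  set u := w / v with hu
  have hu1 : 1 ≤ u := Nat.div_pos hw1 hv1
  have h3 : u * v ≤ w := Nat.div_mul_le_self w v
  have h4 : w < 2 * (u * v) := by
    have := Nat.lt_div_mul_add (a := w) (b := v) (by omega)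
    nlinarith
  have h5 := (b_mul u v hu1).trans (b_mono h3)
  have h6 : ((u * (u + 1) / 2 * (8 * C * v ^ 2) : ℕ) : ℕ∞) ≤ b w := by
    refine le_trans ?_ h5
    push_cast
    gcongr
    have := hv.le
    push_cast at this
    exact this
  have h7 : C * w ^ 2 ≤ u * (u + 1) / 2 * (8 * C * v ^ 2) := by
    have h8 : u ^ 2 ≤ 2 * (u * (u + 1) / 2) := by
      have : u * (u + 1) / 2 * 2 = u * (u + 1) := Nat.div_mul_cancel (Nat.even_mul_succ_self u).two_dvd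
      nlinarith
    have h9 : w ^ 2 ≤ 4 * (u * v) ^ 2 := by
      have : w ^ 2 ≤ (2 * (u * v)) ^ 2 := Nat.pow_le_pow_left h4.le 2
      nlinarith
    calc C * w ^ 2 ≤ C * (4 * (u * v) ^ 2) := Nat.mul_le_mul_left _ h9
      _ = (u ^ 2) * (4 * C * v ^ 2) := by ring
      _ ≤ (2 * (u * (u + 1) / 2)) * (4 * C * v ^ 2) := Nat.mul_le_mul_right _ h8
      _ = u * (u + 1) / 2 * (8 * C * v ^ 2) := by ring
  have h8 : ((C * w ^ 2 : ℕ) : ℕ∞) ≤ b w := le_trans (by exact_mod_cast h7) h6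
  exact absurd h8 (not_le.2 hw2)

end Pool.Agent.RCC
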