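import Pool.Agent.RCC.Defs

/-!
RCC/Lex (MP_920410_lc). The lexicographic product of two recursive ordered sets: every element of `P`
is replaced by a copy of `Q`.

PROOFS. `lex_recOrd`: computability by composition with `Nat.unpair`, the conjunctions and
disjunctions of computable predicates (for the relation: on pairs of elements of the product the
predicate is `(x.1 = y.1 and (x.2, y.2) in rel Q) or (x.1 ≠ y.1 and (x.1, y.1) in rel P)` together
with the four memberships); transitivity by cases (if `x.1 ≠ y.1`, `y.1 ≠ z.1` and `x.1 = z.1` then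
`rP x.1 y.1` and `rP y.1 x.1` give `x.1 = y.1`, a contradiction).
`lex_width`: for an antichain `A` of the product the first coordinates form an antichain of `P`
(image of `A`, at most `u` elements), and each fibre is mapped injectively by the second coordinate
onto an antichain of `Q` (at most `v` elements): `Finset.card_le_mul_card_image`.
-/

set_option autoImplicit false

namespace Pool.Agent.RCC

/-- The lexicographic product: the set. -/
def lexSet (P Q : Set ℕ) : Set ℕ := {n | n.unpair.1 ∈ P ∧ n.unpair.2 ∈ Q}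

/-- The lexicographic product: the order. -/
def lexRel (rP rQ : ℕ → ℕ → Prop) (x y : ℕ) : Prop :=
  (x.unpair.1 = y.unpair.1 ∧ rQ x.unpair.2 y.unpair.2) ∨
    (x.unpair.1 ≠ y.unpair.1 ∧ rP x.unpair.1 y.unpair.1)

theorem lex_cp_comp {α β : Type*} [Primcodable α] [Primcodable β] {p : β → Prop}
    (hp : ComputablePred p) {f : α → β} (hf : Computable f) : ComputablePred fun a => p (f a) := by
  obtain ⟨g, hg, rfl⟩ := ComputablePred.computable_iff.1 hp
  exact ComputablePred.computable_iff.2 ⟨fun a => g (f a), hg.comp hf, rfl⟩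

theorem lex_cp_and {α : Type*} [Primcodable α] {p q : α → Prop} (hp : ComputablePred p)
    (hq : ComputablePred q) : ComputablePred fun a => p a ∧ q a := by
  obtain ⟨f, hf, rfl⟩ := ComputablePred.computable_iff.1 hp
  obtain ⟨g, hg, rfl⟩ := ComputablePred.computable_iff.1 hq
  refine ComputablePred.computable_iff.2 ⟨fun a => f a && g a,
    Primrec.and.to_comp.comp hf hg, ?_⟩
  funext a
  simp

theorem lex_cp_or {α : Type*} [Primcodable α] {p q : α → Prop} (hp : ComputablePred p)
    (hq : ComputablePred q) : ComputablePred fun a => p a ∨ q a := by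
  obtain ⟨f, hf, rfl⟩ := ComputablePred.computable_iff.1 hp
  obtain ⟨g, hg, rfl⟩ := ComputablePred.computable_iff.1 hq
  refine ComputablePred.computable_iff.2 ⟨fun a => f a || g a,
    Primrec.or.to_comp.comp hf hg, ?_⟩
  funext a
  simp

theorem lex_recOrd {P Q : Set ℕ} {rP rQ : ℕ → ℕ → Prop} (hP : RecOrd P rP) (hQ : RecOrd Q rQ) :
    RecOrd (lexSet P Q) (lexRel rP rQ) := by
  have u1 : Computable fun n : ℕ => n.unpair.1 := (Primrec.fst.comp Primrec.unpair).to_comp
  have u2 : Computable fun n : ℕ => n.unpair.2 := (Primrec.snd.comp Primrec.unpair).to_comp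
  have f1 : Computable fun p : ℕ × ℕ => p.1.unpair.1 := u1.comp Computable.fst
  have f2 : Computable fun p : ℕ × ℕ => p.1.unpair.2 := u2.comp Computable.fst
  have g1 : Computable fun p : ℕ × ℕ => p.2.unpair.1 := u1.comp Computable.snd
  have g2 : Computable fun p : ℕ × ℕ => p.2.unpair.2 := u2.comp Computable.snd
  have heq : ComputablePred fun p : ℕ × ℕ => p.1 = p.2 :=
    (Primrec.eq (α := ℕ)).computablePred
  have hE := lex_cp_comp heq (f1.pair g1)
  have hN : ComputablePred fun p : ℕ × ℕ => ¬ (p.1.unpair.1 = p.2.unpair.1) := hE.not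
  constructor
  · exact lex_cp_and (lex_cp_comp hP.dom u1) (lex_cp_comp hQ.dom u2)
  · have h1 : ComputablePred fun p : ℕ × ℕ => p.1 ∈ lexSet P Q :=
      lex_cp_and (lex_cp_comp hP.dom f1) (lex_cp_comp hQ.dom f2)
    have h2 : ComputablePred fun p : ℕ × ℕ => p.2 ∈ lexSet P Q :=
      lex_cp_and (lex_cp_comp hP.dom g1) (lex_cp_comp hQ.dom g2)
    have hq := lex_cp_comp hQ.rel (f2.pair g2)
    have hp := lex_cp_comp hP.rel (f1.pair g1)
    refine (lex_cp_and h1 (lex_cp_and h2 (lex_cp_or (lex_cp_and hE hq) (lex_cp_and hN hp)))).of_eq ?_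
    intro p
    simp only [lexSet, lexRel, Set.mem_ofPred_eq]
    tauto
  · intro x hx
    exact Or.inl ⟨rfl, hQ.refl _ hx.2⟩
  · intro x hx y hy hxy hyx
    have key : x.unpair = y.unpair := by
      rcases hxy with ⟨h1, h2⟩ | ⟨h1, h2⟩
      · rcases hyx with ⟨h3, h4⟩ | ⟨h3, h4⟩
        · exact Prod.ext h1 (hQ.antisymm _ hx.2 _ hy.2 h2 h4)
        · exact absurd h1.symm h3
      · rcases hyx with ⟨h3, h4⟩ | ⟨h3, h4⟩
        · exact absurd h3.symm h1
        · exact absurd (hP.antisymm _ hx.1 _ hy.1 h2 h4) h1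
    rw [← Nat.pair_unpair x, key, Nat.pair_unpair]
  · intro x hx y hy z hz hxy hyz
    rcases hxy with ⟨h1, h2⟩ | ⟨h1, h2⟩
    · rcases hyz with ⟨h3, h4⟩ | ⟨h3, h4⟩
      · exact Or.inl ⟨h1.trans h3, hQ.trans _ hx.2 _ hy.2 _ hz.2 h2 h4⟩
      · refine Or.inr ⟨?_, ?_⟩
        · rw [h1]
          exact h3
        · rw [h1]
          exact h4
    · rcases hyz with ⟨h3, h4⟩ | ⟨h3, h4⟩
      · refine Or.inr ⟨?_, ?_⟩
        · rw [← h3]
          exact h1
        · rw [← h3]
          exact h2
      · refine Or.inr ⟨?_, hP.trans _ hx.1 _ hy.1 _ hz.1 h2 h4⟩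
        intro h5
        rw [← h5] at h4
        exact h1 (hP.antisymm _ hx.1 _ hy.1 h2 h4)

theorem lex_width {P Q : Set ℕ} {rP rQ : ℕ → ℕ → Prop} {u v : ℕ} (hP : RecOrd P rP)
    (hQ : RecOrd Q rQ) (hu : ∀ A, Anti P rP A → A.card ≤ u) (hv : ∀ A, Anti Q rQ A → A.card ≤ v) :
    ∀ A, Anti (lexSet P Q) (lexRel rP rQ) A → A.card ≤ u * v := by
  intro A hA
  have h1 : (A.image fun x => x.unpair.1).card ≤ u := by
    apply hu
    constructor
    · intro x hx
      rw [Finset.mem_image] at hx
      obtain ⟨a, ha, rfl⟩ := hx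
      exact (hA.1 a ha).1
    · intro x hx y hy hne h
      rw [Finset.mem_image] at hx hy
      obtain ⟨a, ha, rfl⟩ := hx
      obtain ⟨c, hc, rfl⟩ := hy
      have hac : a ≠ c := fun h' => hne (by rw [h'])
      exact hA.2 a ha c hc hac (Or.inr ⟨hne, h⟩)
  have h2 : ∀ t ∈ A.image (fun x => x.unpair.1), (A.filter fun x => x.unpair.1 = t).card ≤ v := by
    intro t _
    have hinj : Set.InjOn (fun x : ℕ => x.unpair.2) (A.filter fun x => x.unpair.1 = t) := by
      intro a ha c hc h
      rw [Finset.mem_coe, Finset.mem_filter] at ha hc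
      have e : a.unpair = c.unpair := Prod.ext (ha.2.trans hc.2.symm) h
      rw [← Nat.pair_unpair a, e, Nat.pair_unpair]
    rw [← Finset.card_image_of_injOn hinj]
    apply hv
    constructor
    · intro x hx
      rw [Finset.mem_image] at hx
      obtain ⟨a, ha, rfl⟩ := hx
      rw [Finset.mem_filter] at ha
      exact (hA.1 a ha.1).2
    · intro x hx y hy hne h
      rw [Finset.mem_image] at hx hy
      obtain ⟨a, ha, rfl⟩ := hx
      obtain ⟨c, hc, rfl⟩ := hy
      rw [Finset.mem_filter] at ha hc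
      have hac : a ≠ c := fun h' => hne (by rw [h'])
      exact hA.2 a ha.1 c hc.1 hac (Or.inl ⟨ha.2.trans hc.2.symm, h⟩)
  calc A.card ≤ v * (A.image fun x => x.unpair.1).card :=
        Finset.card_le_mul_card_image A v h2
    _ ≤ v * u := Nat.mul_le_mul_left _ h1
    _ = u * v := Nat.mul_comm _ _

end Pool.Agent.RCC
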