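import Pool.Agent.RCC.Defs

/-!
RCC/Pos (MP_920410_lc). Positions of the game: a list; element number `i` comes with the finite set
`dn s i` of the elements below it and the finite set `cl s i` of its colours.
-/

set_option autoImplicit false

namespace Pool.Agent.RCC

/-- Positions. -/
abbrev Pos := List (Finset ℕ × Finset ℕ)

/-- The elements below element `i`. -/
def dn (s : Pos) (i : ℕ) : Finset ℕ := (s.getD i (∅, ∅)).1

/-- The colours of element `i`. -/
def cl (s : Pos) (i : ℕ) : Finset ℕ := (s.getD i (∅, ∅)).2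

/-- Antichains of a position. -/
def PAnti (s : Pos) (A : Finset ℕ) : Prop :=
  (∀ i ∈ A, i < s.length) ∧ ∀ i ∈ A, ∀ j ∈ A, i ∉ dn s j

/-- A partial order of width at most `u`, new elements are never below old ones. -/
structure Ord (u : ℕ) (s : Pos) : Prop where
  down : ∀ j < s.length, ∀ i ∈ dn s j, i < j
  trans : ∀ j < s.length, ∀ i ∈ dn s j, ∀ h ∈ dn s i, h ∈ dn s j
  width : ∀ A, PAnti s A → A.card ≤ u

/-- The colours are legal. -/
structure Leg (m k : ℕ) (s : Pos) : Prop where
  sub : ∀ j < s.length, cl s j ⊆ Finset.range k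
  card : ∀ j < s.length, m ≤ (cl s j).card
  disj : ∀ j < s.length, ∀ i < j, i ∉ dn s j → Disjoint (cl s i) (cl s j)

/-- A new element with the set `S` below it may be presented. -/
def Ok (u : ℕ) (s : Pos) (S : Finset ℕ) : Prop :=
  (∀ i ∈ S, i < s.length) ∧ (∀ i ∈ S, ∀ h ∈ dn s i, h ∈ S) ∧
    ∀ A, PAnti s A → Disjoint A S → A.card + 1 ≤ u

/-- The set of colours `X` may be given to it. -/
def LegX (m k : ℕ) (s : Pos) (S X : Finset ℕ) : Prop :=
  X ⊆ Finset.range k ∧ m ≤ X.card ∧ ∀ i < s.length, i ∉ S → Disjoint (cl s i) X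

/-- The first player can force a position with `Φ`. -/
inductive Frc (u m k : ℕ) (Φ : Pos → Prop) : Pos → Prop
  | done (s : Pos) : Φ s → Frc u m k Φ s
  | step (s : Pos) (S : Finset ℕ) : Ok u s S →
      (∀ X, LegX m k s S X → Frc u m k Φ (s ++ [(S, X)])) → Frc u m k Φ s

theorem Frc.bind {u m k : ℕ} {Φ Ψ : Pos → Prop} {s : Pos} (h : Frc u m k Φ s)
    (h' : ∀ t, Φ t → Frc u m k Ψ t) : Frc u m k Ψ s := by
  induction h with
  | done s hs => exact h' s hs
  | step s S hok _ ih => exact Frc.step s S hok ih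

theorem dn_append_lt {s t : Pos} {i : ℕ} (hi : i < s.length) : dn (s ++ t) i = dn s i := by
  unfold dn
  rw [List.getD_append _ _ _ _ hi]

theorem cl_append_lt {s t : Pos} {i : ℕ} (hi : i < s.length) : cl (s ++ t) i = cl s i := by
  unfold cl
  rw [List.getD_append _ _ _ _ hi]

theorem dn_last (s : Pos) (S X : Finset ℕ) : dn (s ++ [(S, X)]) s.length = S := by
  unfold dn
  rw [List.getD_append_right _ _ _ _ le_rfl]
  simp

theorem cl_last (s : Pos) (S X : Finset ℕ) : cl (s ++ [(S, X)]) s.length = X := by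
  unfold cl
  rw [List.getD_append_right _ _ _ _ le_rfl]
  simp

/-- An up-closed chain. -/
structure UC (s : Pos) (C : Finset ℕ) : Prop where
  lt : ∀ i ∈ C, i < s.length
  up : ∀ i ∈ C, ∀ j < s.length, i ∈ dn s j → j ∈ C
  chain : ∀ i ∈ C, ∀ j ∈ C, i < j → i ∈ dn s j

/-- The colours on a set of elements. -/
def cols (s : Pos) (C : Finset ℕ) : Finset ℕ := C.biUnion (cl s)

theorem ord_snoc {u : ℕ} {s : Pos} (hs : Ord u s) {S : Finset ℕ} (hS : Ok u s S) (X : Finset ℕ) :
    Ord u (s ++ [(S, X)]) := by
  have hlen : (s ++ [(S, X)]).length = s.length + 1 := by simp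
  refine ⟨?_, ?_, ?_⟩
  · intro j hj i hi
    rcases Nat.lt_succ_iff_lt_or_eq.1 (hlen ▸ hj) with h | rfl
    · rw [dn_append_lt h] at hi
      exact hs.down j h i hi
    · rw [dn_last] at hi
      exact hS.1 i hi
  · intro j hj i hi h hh
    rcases Nat.lt_succ_iff_lt_or_eq.1 (hlen ▸ hj) with hj' | rfl
    · rw [dn_append_lt hj'] at hi ⊢
      have h1 := hs.down j hj' i hi
      rw [dn_append_lt (h1.trans hj')] at hh
      exact hs.trans j hj' i hi h hh
    · rw [dn_last] at hi ⊢
      rw [dn_append_lt (hS.1 i hi)] at hh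
      exact hS.2.1 i hi h hh
  · intro A hA
    by_cases hn : s.length ∈ A
    · have h1 : PAnti s (A.erase s.length) := by
        refine ⟨fun i hi => ?_, fun i hi j hj => ?_⟩
        · have h2 := hA.1 i (Finset.mem_of_mem_erase hi)
          have h3 := Finset.ne_of_mem_erase hi
          omega
        · have h2 := hA.2 i (Finset.mem_of_mem_erase hi) j (Finset.mem_of_mem_erase hj)
          have h3 : j < s.length := by
            have := hA.1 j (Finset.mem_of_mem_erase hj)
            have := Finset.ne_of_mem_erase hj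
            omega
          rwa [dn_append_lt h3] at h2
      have h2 : Disjoint (A.erase s.length) S := by
        rw [Finset.disjoint_left]
        intro i hi hiS
        have h3 := hA.2 i (Finset.mem_of_mem_erase hi) s.length hn
        rw [dn_last] at h3
        exact h3 hiS
      have h3 := hS.2.2 _ h1 h2
      rw [Finset.card_erase_of_mem hn] at h3
      have h4 := Finset.card_pos.2 ⟨_, hn⟩
      omega
    · refine hs.width A ⟨fun i hi => ?_, fun i hi j hj => ?_⟩
      · have h2 := hA.1 i hi
        have h3 : i ≠ s.length := fun h => hn (h ▸ hi)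
        omega
      · have h2 := hA.2 i hi j hj
        have h3 : j < s.length := by
          have := hA.1 j hj
          have h4 : j ≠ s.length := fun h => hn (h ▸ hj)
          omega
        rwa [dn_append_lt h3] at h2

theorem leg_snoc {m k : ℕ} {s : Pos} (hs : Leg m k s) {S X : Finset ℕ} (hX : LegX m k s S X) :
    Leg m k (s ++ [(S, X)]) := by
  have hlen : (s ++ [(S, X)]).length = s.length + 1 := by simp
  refine ⟨?_, ?_, ?_⟩
  · intro j hj
    rcases Nat.lt_succ_iff_lt_or_eq.1 (hlen ▸ hj) with h | rfl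
    · rw [cl_append_lt h]
      exact hs.sub j h
    · rw [cl_last]
      exact hX.1
  · intro j hj
    rcases Nat.lt_succ_iff_lt_or_eq.1 (hlen ▸ hj) with h | rfl
    · rw [cl_append_lt h]
      exact hs.card j h
    · rw [cl_last]
      exact hX.2.1
  · intro j hj i hij hi
    rcases Nat.lt_succ_iff_lt_or_eq.1 (hlen ▸ hj) with h | rfl
    · rw [dn_append_lt h] at hi
      rw [cl_append_lt h, cl_append_lt (hij.trans h)]
      exact hs.disj j h i hij hi
    · rw [dn_last] at hi
      rw [cl_last, cl_append_lt hij]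
      exact hX.2.2 i hij hi

end Pool.Agent.RCC
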